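import Pool.Agent.Q265.RL.Stmts

set_option autoImplicit false

open Filter Topology Complex

namespace Pool.Agent.Q265.RL

private lemma cnt (c : ℝ) :
    {θ : ℝ | exp ((θ : ℂ) * I) = exp ((c : ℂ) * I)}.Countable := by
  refine (Set.countable_range (fun n : ℤ => c + n * (2 * Real.pi))).mono ?_
  intro θ hθ
  obtain ⟨n, hn⟩ := Complex.exp_eq_exp_iff_exists_int.1 hθ
  refine ⟨n, ?_⟩
  have h := congrArg Complex.im hn
  simp at h
  change c + (n : ℝ) * (2 * Real.pi) = θ
  linarith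

theorem taskAE : TaskAE := by
  unfold TaskAE
  have h0 : ∀ᵐ θ : ℝ, exp ((θ : ℂ) * I) ≠ 1 := by
    filter_upwards [(cnt 0).ae_notMem MeasureTheory.volume] with θ hθ h
    apply hθ
    simpa using h
  have hj : ∀ᵐ θ : ℝ, ∀ j, exp ((θ : ℂ) * I) ≠ exp ((tt j : ℂ) * I) := by
    rw [MeasureTheory.ae_all_iff]
    intro j
    filter_upwards [(cnt (tt j)).ae_notMem MeasureTheory.volume] with θ hθ h
    exact hθ h
  exact h0.and hj

end Pool.Agent.Q265.RL
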