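import Pool.Agent.Q265.RL.Stmts
set_option autoImplicit false
open Filter Topology Complex
open scoped ZeroAtInfty

namespace Pool.Agent.Q265.RL

lemma bs_abel (R X : ℕ → ℂ) (M : ℕ) :
    ∑ n ∈ Finset.range (M + 1), (R n - R (n + 1)) * X n =
      R 0 * X 0 + ∑ n ∈ Finset.range M, R (n + 1) * (X (n + 1) - X n) - R (M + 1) * X M := by
  induction M with
  | zero => simp; ring
  | succ M ih => rw [Finset.sum_range_succ, ih, Finset.sum_range_succ _ M]; ring

noncomputable def bsMk (R : ℕ → ℂ) (h : Tendsto R atTop (𝓝 0)) : C₀(ℕ, ℂ) :=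
  { toFun := R
    continuous_toFun := continuous_of_discreteTopology
    zero_at_infty' := by
      rw [Filter.cocompact_eq_cofinite, Nat.cofinite_eq_atTop]
      exact h }

lemma bs_norm_le (R : C₀(ℕ, ℂ)) (n : ℕ) : ‖R n‖ ≤ ‖R‖ := by
  rw [← ZeroAtInftyContinuousMap.norm_toBCF_eq_norm]
  exact R.toBCF.norm_coe_le_norm n

lemma bs_tendsto (R : C₀(ℕ, ℂ)) : Tendsto (fun n => R n) atTop (𝓝 0) := by
  have h := R.zero_at_infty'
  rw [Filter.cocompact_eq_cofinite, Nat.cofinite_eq_atTop] at h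
  exact h

lemma bs_bound (x : ℕ → ℂ) (R : C₀(ℕ, ℂ)) (n : ℕ) :
    ‖(R n - R (n + 1)) * x n‖ ≤ 2 * ‖R‖ * ‖x n‖ := by
  rw [norm_mul]
  have h : ‖R n - R (n + 1)‖ ≤ 2 * ‖R‖ := by
    calc ‖R n - R (n + 1)‖ ≤ ‖R n‖ + ‖R (n + 1)‖ := norm_sub_le _ _
      _ ≤ ‖R‖ + ‖R‖ := add_le_add (bs_norm_le R n) (bs_norm_le R (n + 1))
      _ = 2 * ‖R‖ := by ring
  exact mul_le_mul_of_nonneg_right h (norm_nonneg _)

lemma bs_summ (x : ℕ → ℂ) (hx : Summable fun n => ‖x n‖) (R : C₀(ℕ, ℂ)) :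
    Summable fun n => (R n - R (n + 1)) * x n :=
  Summable.of_norm_bounded (g := fun n => 2 * ‖R‖ * ‖x n‖) (hx.mul_left _) (bs_bound x R)

noncomputable def bsT (x : ℕ → ℂ) (hx : Summable fun n => ‖x n‖) : C₀(ℕ, ℂ) →L[ℂ] ℂ :=
  LinearMap.mkContinuous
    { toFun := fun R => ∑' n, (R n - R (n + 1)) * x n
      map_add' := by
        intro R S
        rw [← (bs_summ x hx R).tsum_add (bs_summ x hx S)]
        refine tsum_congr fun n => ?_
        simp only [ZeroAtInftyContinuousMap.coe_add, Pi.add_apply]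
        ring
      map_smul' := by
        intro c R
        simp only [RingHom.id_apply, smul_eq_mul]
        rw [← tsum_mul_left]
        refine tsum_congr fun n => ?_
        simp only [ZeroAtInftyContinuousMap.coe_smul, Pi.smul_apply, smul_eq_mul]
        ring }
    (2 * ∑' n, ‖x n‖) (by
      intro R
      simp only [LinearMap.coe_mk, AddHom.coe_mk]
      have h1 : ‖∑' n, (R n - R (n + 1)) * x n‖ ≤ ∑' n, 2 * ‖R‖ * ‖x n‖ :=
        tsum_of_norm_bounded (hx.mul_left (2 * ‖R‖)).hasSum (bs_bound x R)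
      rw [tsum_mul_left] at h1
      calc ‖∑' n, (R n - R (n + 1)) * x n‖ ≤ 2 * ‖R‖ * ∑' n, ‖x n‖ := h1
        _ = (2 * ∑' n, ‖x n‖) * ‖R‖ := by ring)

lemma bsT_apply (x : ℕ → ℂ) (hx : Summable fun n => ‖x n‖) (R : C₀(ℕ, ℂ)) :
    bsT x hx R = ∑' n, (R n - R (n + 1)) * x n := rfl

/-- test sequence -/
noncomputable def bsR (d : ℕ → ℂ) (M : ℕ) : ℕ → ℂ
  | 0 => 0
  | n + 1 => if n < M then (starRingEnd ℂ) (d n) / (‖d n‖ : ℂ) else 0

lemma bsR_zero (d : ℕ → ℂ) (M n : ℕ) (h : M < n) : bsR d M n = 0 := by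
  cases n with
  | zero => rfl
  | succ n =>
    simp only [bsR]
    rw [if_neg (by omega)]

lemma bsR_norm (d : ℕ → ℂ) (M n : ℕ) : ‖bsR d M n‖ ≤ 1 := by
  cases n with
  | zero => simp [bsR]
  | succ n =>
    simp only [bsR]
    split_ifs
    · rw [norm_div, RCLike.norm_conj]
      simp only [Complex.norm_real, norm_norm]
      exact div_self_le_one _
    · simp

lemma bsR_tendsto (d : ℕ → ℂ) (M : ℕ) : Tendsto (bsR d M) atTop (𝓝 0) := by
  apply tendsto_const_nhds.congr'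
  filter_upwards [eventually_gt_atTop M] with n hn
  rw [bsR_zero d M n hn]

lemma bsR_mul (d : ℕ → ℂ) (M n : ℕ) (h : n < M) : bsR d M (n + 1) * d n = (‖d n‖ : ℂ) := by
  simp only [bsR]
  rw [if_pos h]
  by_cases h0 : d n = 0
  · simp [h0]
  · have h1 : (‖d n‖ : ℂ) ≠ 0 := by
      simpa using h0
    rw [div_mul_eq_mul_div, mul_comm ((starRingEnd ℂ) (d n)), Complex.mul_conj,
      Complex.normSq_eq_norm_sq]
    push_cast
    field_simp

theorem taskBS : TaskBS := by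
  intro ι X hX hvar
  by_contra hcon
  push Not at hcon
  have h1 : ∀ R : C₀(ℕ, ℂ), ∃ C, ∀ j, ‖bsT (X j) (hX j) R‖ ≤ C := by
    intro R
    have h2 : Tendsto (fun n => ∑ k ∈ Finset.range n, (R k - R (k + 1))) atTop (𝓝 (R 0 - 0)) := by
      have h3 : (fun n => ∑ k ∈ Finset.range n, (R k - R (k + 1))) = fun n => R 0 - R n := by
        funext n
        rw [Finset.sum_range_sub']
      rw [h3]
      exact tendsto_const_nhds.sub (bs_tendsto R)
    obtain ⟨K, hK⟩ := hcon (fun n => R n - R (n + 1)) _ h2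
    exact ⟨K, fun j => (hK j).le⟩
  obtain ⟨C, hC⟩ := banach_steinhaus h1
  obtain ⟨j, M, hM⟩ := hvar (C + 1)
  set d : ℕ → ℂ := fun n => X j (n + 1) - X j n with hd
  set R : C₀(ℕ, ℂ) := bsMk (bsR d M) (bsR_tendsto d M) with hR
  have hRn : ∀ n, R n = bsR d M n := fun n => rfl
  have hnorm : ‖R‖ ≤ 1 := by
    rw [← ZeroAtInftyContinuousMap.norm_toBCF_eq_norm]
    rw [BoundedContinuousFunction.norm_le zero_le_one]
    intro n
    exact bsR_norm d M n
  have hval : bsT (X j) (hX j) R = ((∑ n ∈ Finset.range M, ‖d n‖ : ℝ) : ℂ) := by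
    rw [bsT_apply]
    rw [tsum_eq_sum (s := Finset.range (M + 1))]
    · simp_rw [hRn]
      rw [bs_abel, bsR_zero d M (M + 1) (by omega)]
      have h0 : bsR d M 0 = 0 := rfl
      rw [h0, zero_mul, zero_mul, zero_add, sub_zero, Complex.ofReal_sum]
      refine Finset.sum_congr rfl fun n hn => ?_
      exact bsR_mul d M n (Finset.mem_range.1 hn)
    · intro n hn
      have h2 : M < n := by
        rw [Finset.mem_range] at hn
        omega
      rw [hRn, hRn, bsR_zero d M n h2, bsR_zero d M (n + 1) (by omega)]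
      simp
  have h5 : ‖bsT (X j) (hX j) R‖ ≤ C := by
    calc ‖bsT (X j) (hX j) R‖ ≤ ‖bsT (X j) (hX j)‖ * ‖R‖ := ContinuousLinearMap.le_opNorm _ _
      _ ≤ ‖bsT (X j) (hX j)‖ * 1 := mul_le_mul_of_nonneg_left hnorm (ContinuousLinearMap.opNorm_nonneg _)
      _ = ‖bsT (X j) (hX j)‖ := mul_one _
      _ ≤ C := hC j
  rw [hval, Complex.norm_real, Real.norm_of_nonneg (Finset.sum_nonneg fun n _ => norm_nonneg _)] at h5
  linarith

end Pool.Agent.Q265.RL
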