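import Pool.Agent.Q265.RL.Stmts

set_option autoImplicit false

open Filter Topology Complex

namespace Pool.Agent.Q265.RL

private lemma ww_pos (j : ℕ) : 0 < ww j := by
  unfold ww
  positivity

private lemma ww_sum (n : ℕ) : ∑ j ∈ Finset.range n, ww j = 1 - 1 / ((n : ℝ) + 1) := by
  induction n with
  | zero => simp
  | succ n ih =>
    rw [Finset.sum_range_succ, ih]
    unfold ww
    push_cast
    have h1 : (n : ℝ) + 1 ≠ 0 := by positivity
    have h2 : (n : ℝ) + 2 ≠ 0 := by positivity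
    have h3 : (n : ℝ) + 1 + 1 ≠ 0 := by positivity
    field_simp
    ring

private lemma ww_hasSum : HasSum ww 1 := by
  rw [hasSum_iff_tendsto_nat_of_nonneg (fun j => (ww_pos j).le)]
  have h : Tendsto (fun n : ℕ => 1 - 1 / ((n : ℝ) + 1)) atTop (𝓝 (1 - 0)) :=
    tendsto_const_nhds.sub tendsto_one_div_add_atTop_nhds_zero_nat
  rw [sub_zero] at h
  exact h.congr (fun n => (ww_sum n).symm)

private lemma tt_mem (j : ℕ) : 0 < tt j ∧ tt j ≤ 1 / 100 := by
  unfold tt
  refine ⟨by positivity, ?_⟩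
  have : ((1 : ℝ) / 2) ^ j ≤ 1 := pow_le_one₀ (by norm_num) (by norm_num)
  linarith

private lemma mm_pos (j : ℕ) : 0 < mm j := by
  unfold mm
  have h1 := tt_mem j
  have h2 : 0 < Real.sin (tt j) :=
    Real.sin_pos_of_pos_of_lt_pi h1.1 (by linarith [Real.pi_gt_three, h1.2])
  have := ww_pos j
  have := Real.pi_pos
  positivity

private lemma mm_le (j : ℕ) : mm j ≤ 1 / 50 * ww j := by
  unfold mm
  have h1 := tt_mem j
  have h2 : Real.sin (tt j) ≤ 1 / 100 := (Real.sin_le h1.1.le).trans h1.2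
  have h3 := ww_pos j
  have h4 : Real.pi ≤ 4 := Real.pi_le_four
  have h5 : 0 ≤ Real.sin (tt j) :=
    Real.sin_nonneg_of_nonneg_of_le_pi h1.1.le (by linarith [Real.pi_gt_three, h1.2])
  have h6 : Real.pi / 2 * Real.sin (tt j) ≤ 2 * (1 / 100) :=
    mul_le_mul (by linarith) h2 h5 (by norm_num)
  nlinarith

theorem taskBasic : TaskBasic := by
  have hs : Summable mm :=
    Summable.of_nonneg_of_le (fun j => (mm_pos j).le) mm_le (ww_hasSum.summable.mul_left _)
  refine ⟨tt_mem, mm_pos, hs, ?_, ww_hasSum.summable, ww_hasSum.tsum_eq⟩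
  calc (∑' j, mm j) ≤ ∑' j, 1 / 50 * ww j :=
        hs.tsum_le_tsum mm_le (ww_hasSum.summable.mul_left _)
    _ = 1 / 50 := by rw [tsum_mul_left, ww_hasSum.tsum_eq, mul_one]

end Pool.Agent.Q265.RL
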