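import Pool.Agent.Q265.RL.Stmts

/-!
# Real dynamics
-/

set_option autoImplicit false

open Filter Topology Set

namespace Pool.Agent.Q265.RL

namespace ChainAux

variable {g : ℝ → ℝ}

theorem ivt (hc : ContinuousOn g (Icc (-3) 3)) {p q y : ℝ} (hp : -3 ≤ p) (hpq : p ≤ q)
    (hq : q ≤ 3) (h1 : g p ≤ y) (h2 : y ≤ g q) : ∃ z ∈ Icc p q, g z = y := by
  have := intermediate_value_Icc hpq (hc.mono (Icc_subset_Icc hp hq))
  obtain ⟨z, hz, hzy⟩ := this ⟨h1, h2⟩
  exact ⟨z, hz, hzy⟩

theorem hit (hc : ContinuousOn g (Icc (-3) 3))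
    (hl : ∀ x y : ℝ, -3 ≤ x → x ≤ y → y ≤ 3 → 1001 * (y - x) ≤ g y - g x) {p q : ℝ}
    (hp : -3 ≤ p) (hpq : 1 / 100 ≤ q - p) (hq : q ≤ 3) (y : ℝ) :
    ∃ z ∈ Icc p q, ∃ k : ℤ, y = g z - 2 * Real.pi * k := by
  have hpi := Real.pi_pos
  have hpi2 := Real.pi_lt_four
  have h0 := hl p q hp (by linarith) hq
  set k : ℤ := ⌈(g p - y) / (2 * Real.pi)⌉ with hk
  have h1 : (g p - y) / (2 * Real.pi) ≤ k := Int.le_ceil _
  have h2 : (k : ℝ) < (g p - y) / (2 * Real.pi) + 1 := Int.ceil_lt_add_one _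
  have h3 : g p - y ≤ k * (2 * Real.pi) := (div_le_iff₀ (by positivity)).1 h1
  have h4 : (k : ℝ) * (2 * Real.pi) < g p - y + 2 * Real.pi := by
    have := mul_lt_mul_of_pos_right h2 (show (0 : ℝ) < 2 * Real.pi by positivity)
    rwa [add_mul, div_mul_cancel₀ _ (by positivity), one_mul] at this
  obtain ⟨z, hz, hzy⟩ := ivt hc (y := y + 2 * Real.pi * k) hp (by linarith) hq (by linarith)
    (by linarith)
  exact ⟨z, hz, k, by rw [hzy]; ring⟩

theorem orb (N : ℕ) : ∀ P : ℕ → Set ℝ, (P N).Nonempty →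
    (∀ n < N, ∀ y ∈ P (n + 1), ∃ z ∈ P n, ∃ k : ℤ, y = g z - 2 * Real.pi * k) →
    ∃ x : ℕ → ℝ, (∀ n ≤ N, x n ∈ P n) ∧
      ∀ n < N, ∃ k : ℤ, x (n + 1) = g (x n) - 2 * Real.pi * k := by
  induction N with
  | zero =>
    rintro P ⟨y, hy⟩ -
    refine ⟨fun _ => y, fun n hn => ?_, fun n hn => absurd hn (Nat.not_lt_zero _)⟩
    rw [Nat.le_zero.1 hn]
    exact hy
  | succ N ih =>
    intro P hne h
    obtain ⟨x, hx1, hx2⟩ := ih (fun n => P (n + 1)) hne fun n hn => h (n + 1) (by omega)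
    obtain ⟨z, hz, k, hk⟩ := h 0 (by omega) (x 0) (hx1 0 (by omega))
    refine ⟨fun n => Nat.casesOn n z fun m => x m, ?_, ?_⟩
    · intro n hn
      cases n with
      | zero => exact hz
      | succ m => exact hx1 m (by omega)
    · intro n hn
      cases n with
      | zero => exact ⟨k, hk⟩
      | succ m => exact hx2 m (by omega)

theorem climb (hc : ContinuousOn g (Icc (-3) 3)) (h0 : g 0 = 0)
    (hl : ∀ x y : ℝ, -3 ≤ x → x ≤ y → y ≤ 3 → 1001 * (y - x) ≤ g y - g x) (i : ℕ) :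
    ∀ a b : ℝ, 0 ≤ a → a ≤ b → (∀ n ≤ i, g^[n] b ≤ 1) → ∀ x : ℕ → ℝ,
      x 0 ∈ Icc (g^[i] a) (g^[i] b) → ∃ x' : ℕ → ℝ, x' 0 ∈ Icc a b ∧ (∀ n, x' (i + n) = x n) ∧
        ∀ n < i, |x' n| ≤ 3 ∧ x' (n + 1) = g (x' n) := by
  induction i with
  | zero =>
    intro a b _ _ _ x hx
    exact ⟨x, hx, fun n => by rw [Nat.zero_add], fun n hn => absurd hn (Nat.not_lt_zero _)⟩
  | succ i ih =>
    intro a b ha hab hb x hx
    have hb1 : b ≤ 1 := hb 0 (Nat.zero_le _)
    have hga : 0 ≤ g a := by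
      have := hl 0 a (by norm_num) ha (by linarith)
      rw [h0] at this
      linarith
    have hgab : g a ≤ g b := by
      have := hl a b (by linarith) hab (by linarith)
      linarith
    obtain ⟨y, hy1, hy2, hy3⟩ := ih (g a) (g b) hga hgab (fun n hn => by
      have := hb (n + 1) (by omega)
      rwa [Function.iterate_succ_apply] at this) x (by
      rw [Function.iterate_succ_apply, Function.iterate_succ_apply] at hx
      exact hx)
    obtain ⟨z, hz, hzy⟩ := ivt hc (by linarith : (-3 : ℝ) ≤ a) hab (by linarith : b ≤ 3)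
      hy1.1 hy1.2
    refine ⟨fun n => Nat.casesOn n z fun m => y m, hz, ?_, ?_⟩
    · intro n
      have e : i + 1 + n = (i + n) + 1 := by omega
      rw [e]
      exact hy2 n
    · intro n hn
      cases n with
      | zero =>
        refine ⟨?_, hzy.symm⟩
        change |z| ≤ 3
        rw [abs_le]
        exact ⟨by linarith [hz.1], by linarith [hz.2]⟩
      | succ m => exact hy3 m (by omega)

theorem sub {c e : ℝ} (h : 49 / 100 ≤ e - c) : ∃ (u : ℝ) (k : ℤ), -3 ≤ u ∧ u + 1 / 100 ≤ 3 ∧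
    c ≤ u + 2 * Real.pi * k ∧ u + 1 / 100 + 2 * Real.pi * k ≤ e := by
  have hpi1 := Real.pi_gt_d2
  have hpi2 := Real.pi_lt_d2
  have hpi := Real.pi_pos
  set k : ℤ := ⌊(c + 3) / (2 * Real.pi)⌋ with hk
  have h1 : (k : ℝ) ≤ (c + 3) / (2 * Real.pi) := Int.floor_le _
  have h2 : (c + 3) / (2 * Real.pi) < k + 1 := Int.lt_floor_add_one _
  have h3 : k * (2 * Real.pi) ≤ c + 3 := (le_div_iff₀ (by positivity)).1 h1
  have h4 : c + 3 < (k + 1) * (2 * Real.pi) := (div_lt_iff₀ (by positivity)).1 h2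
  by_cases h5 : c - 2 * Real.pi * k ≤ 299 / 100
  · exact ⟨c - 2 * Real.pi * k, k, by linarith, by linarith, by linarith, by linarith⟩
  · refine ⟨-3, k + 1, le_rfl, by norm_num, ?_, ?_⟩
    · push_cast
      linarith
    · push_cast
      push Not at h5
      linarith

end ChainAux

open ChainAux in
theorem taskChain : TaskChain := by
  intro g hc h0 hl hu hs d K hd hd2
  have hpos : ∀ y : ℝ, 0 ≤ y → y ≤ 1 → 1001 * y ≤ g y := by
    intro y h1 h2
    have := hl 0 y (by norm_num) h1 (by linarith)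
    rw [h0] at this
    linarith
  -- the exit time
  have hex : ∃ n : ℕ, 1 < g^[n] (2 * d) := by
    by_contra hno
    push Not at hno
    have h1 : ∀ n : ℕ, 1001 ^ n * (2 * d) ≤ g^[n] (2 * d) := by
      intro n
      induction n with
      | zero => simp
      | succ n ih =>
        rw [Function.iterate_succ_apply']
        have h2 : 0 ≤ g^[n] (2 * d) := le_trans (by positivity) ih
        have h3 := hpos _ h2 (hno n)
        rw [pow_succ]
        nlinarith
    obtain ⟨n, hn⟩ := pow_unbounded_of_one_lt (1 / (2 * d)) (by norm_num : (1 : ℝ) < 1001)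
    have h4 := (h1 n).trans (hno n)
    rw [div_lt_iff₀ (by positivity)] at hn
    linarith
  classical
  obtain ⟨i, hi1, hi2⟩ : ∃ i : ℕ, (∀ n ≤ i, g^[n] (2 * d) ≤ 1) ∧ 1 < g^[i + 1] (2 * d) := by
    have hne : Nat.find hex ≠ 0 := by
      intro h
      have := Nat.find_spec hex
      rw [h] at this
      simp only [Function.iterate_zero, id_eq] at this
      linarith
    refine ⟨Nat.find hex - 1, fun n hn => ?_, ?_⟩
    · exact not_lt.1 (Nat.find_min hex (by omega))
    · have := Nat.find_spec hex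
      rwa [show Nat.find hex = Nat.find hex - 1 + 1 by omega] at this
  have hab : ∀ n ≤ i, 1001 ^ n * d ≤ g^[n] d ∧ 2 * g^[n] d ≤ g^[n] (2 * d) := by
    intro n
    induction n with
    | zero => intro _; simp
    | succ n ih =>
      intro hn
      obtain ⟨k1, k2⟩ := ih (by omega)
      have k3 := hi1 n (by omega)
      have k4 : 0 ≤ g^[n] d := le_trans (by positivity) k1
      rw [Function.iterate_succ_apply', Function.iterate_succ_apply']
      refine ⟨?_, hs _ _ k4 k2 k3⟩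
      have k5 := hpos _ k4 (by linarith)
      rw [pow_succ]
      nlinarith
  obtain ⟨ha1, ha2⟩ := hab i le_rfl
  have hb1 := hi1 i le_rfl
  set A := g^[i] d with hA
  set B := g^[i] (2 * d) with hB
  have hA0 : 0 ≤ A := le_trans (by positivity) ha1
  have hAB : A ≤ B := by linarith
  rw [Function.iterate_succ_apply', ← hB] at hi2
  have hB1 : 1 / 1010 ≤ B := by
    have := hu 0 B (by norm_num) (by linarith) (by linarith)
    rw [h0] at this
    rw [div_le_iff₀ (by norm_num)]
    linarith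
  have hlen : 49 / 100 ≤ g B - g A := by
    have := hl A B (by linarith) hAB (by linarith)
    linarith
  obtain ⟨u, k, hu1, hu2, hu3, hu4⟩ := sub hlen
  -- the tail
  obtain ⟨y, hy1, hy2⟩ := orb (g := g) K
    (fun n => Icc ((-1 : ℝ) ^ n - 1 / 10) ((-1) ^ n + 1 / 10)) ⟨(-1) ^ K, by
      constructor <;> linarith⟩ (by
      intro n _ y _
      have hsgn : (-1 : ℝ) ^ n = 1 ∨ (-1 : ℝ) ^ n = -1 := neg_one_pow_eq_or ℝ n
      refine hit hc hl ?_ ?_ ?_ y
      · rcases hsgn with h | h <;> rw [h] <;> norm_num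
      · linarith
      · rcases hsgn with h | h <;> rw [h] <;> norm_num)
  have hy3 : ∀ n ≤ K, |y n - (-1) ^ n| ≤ 1 / 10 := by
    intro n hn
    have := hy1 n hn
    rw [abs_le]
    exact ⟨by linarith [this.1], by linarith [this.2]⟩
  have hy4 : ∀ n ≤ K, |y n| ≤ 3 := by
    intro n hn
    have h1 := hy1 n hn
    have hsgn : (-1 : ℝ) ^ n = 1 ∨ (-1 : ℝ) ^ n = -1 := neg_one_pow_eq_or ℝ n
    rw [abs_le]
    rcases hsgn with h | h
    · simp only [h] at h1
      exact ⟨by linarith [h1.1], by linarith [h1.2]⟩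
    · simp only [h] at h1
      exact ⟨by linarith [h1.1], by linarith [h1.2]⟩
  obtain ⟨z1, hz1, k1, hk1⟩ := hit hc hl hu1 (q := u + 1 / 100) (by linarith) hu2 (y 0)
  obtain ⟨z, hz, hzy⟩ := ivt hc (y := z1 + 2 * Real.pi * k) (by linarith : (-3 : ℝ) ≤ A) hAB
    (by linarith : B ≤ 3) (by linarith [hz1.1]) (by linarith [hz1.2])
  let x2 : ℕ → ℝ := fun n => Nat.casesOn n z fun m => Nat.casesOn m z1 fun l => y l
  obtain ⟨x, hx1, hx2, hx3⟩ := climb hc h0 hl i d (2 * d) hd.le (by linarith) hi1 x2 hz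
  have e0 : x i = z := hx2 0
  have e1 : x (i + 1) = z1 := hx2 1
  have e2 : ∀ n, x (i + 2 + n) = y n := by
    intro n
    have h1 := hx2 (n + 2)
    have h2 : i + (n + 2) = i + 2 + n := by omega
    rw [h2] at h1
    exact h1
  refine ⟨i, x, by linarith, hx1.1, hx1.2, ?_, ?_, ?_⟩
  · intro n hn
    rcases lt_trichotomy n i with h | h | h
    · exact (hx3 n h).1
    · rw [h, e0, abs_le]
      exact ⟨by linarith [hz.1], by linarith [hz.2]⟩
    · rcases Nat.lt_or_ge n (i + 2) with h' | h'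
      · have : n = i + 1 := by omega
        rw [this, e1, abs_le]
        exact ⟨by linarith [hz1.1], by linarith [hz1.2]⟩
      · have : n = i + 2 + (n - (i + 2)) := by omega
        rw [this, e2]
        exact hy4 _ (by omega)
  · intro n hn
    rcases lt_trichotomy n i with h | h | h
    · exact ⟨0, by rw [(hx3 n h).2]; simp⟩
    · refine ⟨k, ?_⟩
      rw [h, e1, e0, hzy]
      ring
    · rcases Nat.lt_or_ge n (i + 2) with h' | h'
      · have : n = i + 1 := by omega
        refine ⟨k1, ?_⟩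
        rw [this, e1]
        have h1 := e2 0
        rw [show i + 1 + 1 = i + 2 + 0 by omega, h1]
        exact hk1
      · have : n = i + 2 + (n - (i + 2)) := by omega
        obtain ⟨k2, hk2⟩ := hy2 (n - (i + 2)) (by omega)
        refine ⟨k2, ?_⟩
        have h1 := e2 (n - (i + 2) + 1)
        rw [show n + 1 = i + 2 + (n - (i + 2) + 1) by omega, h1, hk2]
        congr 2
        rw [← e2, ← this]
  · intro n hn
    rw [e2]
    exact hy3 n hn

end Pool.Agent.Q265.RL
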