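import Pool.Agent.Q265.RL.Stmts

/-!
# The lift of `f` (MP_f48be4_an, task RF.Conj)
-/

set_option autoImplicit false

open Filter Topology Complex

namespace Pool.Agent.Q265.RL

namespace ConjAux

theorem frac_eq (a ζ : ℂ) :
    (exp (a * I) + E ζ) / (exp (a * I) - E ζ) = I * tan ((ζ + a) / 2) := by
  have h1 : exp (a * I) = exp ((a - ζ) / 2 * I) * exp ((ζ + a) / 2 * I) := by
    rw [← exp_add]; congr 1; ring
  have h2 : exp (-(I * ζ)) = exp ((a - ζ) / 2 * I) * exp (-((ζ + a) / 2) * I) := by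
    rw [← exp_add]; congr 1; ring
  have h3 : exp ((a - ζ) / 2 * I) ≠ 0 := exp_ne_zero _
  have h4 : exp (a * I) + E ζ = exp ((a - ζ) / 2 * I) * (2 * (I * sin ((ζ + a) / 2))) := by
    unfold E
    rw [h1, h2, exp_mul_I ((ζ + a) / 2), exp_mul_I (-((ζ + a) / 2)), cos_neg, sin_neg]
    ring
  have h5 : exp (a * I) - E ζ = exp ((a - ζ) / 2 * I) * (2 * cos ((ζ + a) / 2)) := by
    unfold E
    rw [h1, h2, exp_mul_I ((ζ + a) / 2), exp_mul_I (-((ζ + a) / 2)), cos_neg, sin_neg]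
    ring
  rw [h4, h5, mul_div_mul_left _ _ h3, mul_div_mul_left _ _ two_ne_zero, tan, mul_div_assoc]

theorem tendsto_tt : Tendsto (fun j : ℕ => (tt j : ℂ)) atTop (𝓝 0) := by
  have h : Tendsto (fun j : ℕ => tt j) atTop (𝓝 0) := by
    unfold tt
    have := (tendsto_pow_atTop_nhds_zero_of_lt_one (r := (1 / 2 : ℝ)) (by norm_num)
      (by norm_num)).const_mul (1 / 100 : ℝ)
    simpa using this
  have h' := (Complex.continuous_ofReal.tendsto 0).comp h
  rw [Complex.ofReal_zero] at h'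
  exact h'

theorem cos_ne {ζ : ℂ} (h : |ζ.re| ≤ 3 + 1 / 100) : cos (ζ / 2) ≠ 0 := by
  intro h0
  rw [Complex.cos_eq_zero_iff] at h0
  obtain ⟨k, hk⟩ := h0
  have h1 : ζ = (((2 * k + 1 : ℤ) : ℝ) * Real.pi : ℝ) := by
    have : ζ = (2 * (k : ℂ) + 1) * Real.pi := by
      linear_combination 2 * hk
    rw [this]; push_cast; ring
  have h2 : ζ.re = ((2 * k + 1 : ℤ) : ℝ) * Real.pi := by
    rw [h1, Complex.ofReal_re]
  rw [h2, abs_mul, abs_of_pos Real.pi_pos] at h
  have h3 : (1 : ℝ) ≤ |((2 * k + 1 : ℤ) : ℝ)| := by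
    rw [← Int.cast_abs]
    have : (1 : ℤ) ≤ |2 * k + 1| := by
      apply Int.one_le_abs
      omega
    exact_mod_cast this
  have h4 : (3.14 : ℝ) < Real.pi := Real.pi_gt_d2
  nlinarith

theorem summable_tan (hm : Summable mm) (hpos : ∀ j, 0 < mm j) {ζ : ℂ} (h : |ζ.re| ≤ 3 + 1 / 100) :
    Summable fun j : ℕ => (mm j : ℂ) * tan ((ζ + (tt j : ℂ)) / 2) := by
  have ht : Tendsto (fun j : ℕ => tan ((ζ + (tt j : ℂ)) / 2)) atTop (𝓝 (tan (ζ / 2))) := by
    have hc : ContinuousAt tan (ζ / 2) := Complex.continuousAt_tan.mpr (cos_ne h)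
    refine hc.tendsto.comp ?_
    have := (tendsto_tt.const_add ζ).div_const 2
    simpa using this
  obtain ⟨B, hB⟩ := (Metric.isBounded_range_of_tendsto _ ht).exists_norm_le
  refine Summable.of_norm_bounded (g := fun j => mm j * B) (hm.mul_right B) fun j => ?_
  rw [norm_mul, Complex.norm_real, Real.norm_of_nonneg (hpos j).le]
  exact mul_le_mul_of_nonneg_left (hB _ ⟨j, rfl⟩) (hpos j).le

theorem E_zero : E 0 = -1 := by
  simp [E]

theorem H_E (ζ : ℂ) : H (E ζ) = ∑' j : ℕ, I * ((mm j : ℂ) * tan ((ζ + (tt j : ℂ)) / 2)) := by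
  unfold H
  refine tsum_congr fun j => ?_
  rw [frac_eq]
  ring

end ConjAux

open ConjAux

theorem taskConj : TaskConj := by
  intro hB ζ hζ
  obtain ⟨-, hpos, hm, -⟩ := hB
  have s1 := summable_tan hm hpos hζ
  have s0 := summable_tan hm hpos (ζ := 0) (by norm_num)
  have h1 : H (E ζ) - H (-1) = I * ∑' j : ℕ, (mm j : ℂ) *
      (tan ((ζ + (tt j : ℂ)) / 2) - tan ((tt j : ℂ) / 2)) := by
    rw [← E_zero, H_E, H_E, tsum_mul_left, tsum_mul_left, ← mul_sub, ← s1.tsum_sub s0]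
    congr 1
    refine tsum_congr fun j => ?_
    rw [zero_add]
    ring
  have h2 : (E ζ) ^ 1001 = -exp (-(I * (1001 * ζ))) := by
    unfold E
    rw [neg_pow, ← Complex.exp_nat_mul]
    have : ((-1 : ℂ)) ^ 1001 = -1 := by
      rw [Odd.neg_one_pow (by decide)]
    rw [this]
    push_cast
    rw [neg_one_mul]
    congr 2
    ring
  unfold f
  rw [h2, h1]
  unfold E G
  rw [neg_mul, ← exp_add]
  congr 2
  ring

end Pool.Agent.Q265.RL
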