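import Mathlib

/-!
# Blueprint for MP_f48be4_an (radial limits of series of iterates of an inner function)

`f z = z^1001 exp (-(H z - H (-1)))`, `H z = ∑ m_j (ζ_j + z) / (ζ_j - z)`, `ζ_j = exp (i t_j)`,
`t_j = 2^(-j) / 100`, `m_j = (π / 2) w_j sin t_j`, `w_j = 1 / ((j + 1) (j + 2))`. Radial point `ξ = 1`,
`f(1) = -1`, fixed point `-1`. `E ζ = - exp (- i ζ)` is the universal cover of the circle, `E 0 = -1`,
and `f (E ζ) = E (G ζ)`.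
-/

set_option autoImplicit false

open Filter Topology Complex

namespace Pool.Agent.Q265.RL

/-- the angles of the atoms -/
noncomputable def tt (j : ℕ) : ℝ := (1 / 100) * (1 / 2) ^ j

/-- the weights, of sum one -/
noncomputable def ww (j : ℕ) : ℝ := 1 / (((j : ℝ) + 1) * ((j : ℝ) + 2))

/-- the masses -/
noncomputable def mm (j : ℕ) : ℝ := Real.pi / 2 * ww j * Real.sin (tt j)

noncomputable def H (z : ℂ) : ℂ :=
  ∑' j : ℕ, (mm j : ℂ) * ((exp ((tt j : ℂ) * I) + z) / (exp ((tt j : ℂ) * I) - z))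

noncomputable def f (z : ℂ) : ℂ := z ^ 1001 * exp (-(H z - H (-1)))

noncomputable def E (ζ : ℂ) : ℂ := -exp (-(I * ζ))

noncomputable def G (ζ : ℂ) : ℂ :=
  1001 * ζ + ∑' j : ℕ, (mm j : ℂ) * (tan ((ζ + (tt j : ℂ)) / 2) - tan ((tt j : ℂ) / 2))

noncomputable def g (x : ℝ) : ℝ :=
  1001 * x + ∑' j : ℕ, mm j * (Real.tan ((x + tt j) / 2) - Real.tan (tt j / 2))

/-- `δ(r)`, the deviation of the angle of `f(r)` from `π` -/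
noncomputable def dl (r : ℝ) : ℝ :=
  ∑' j : ℕ, Real.pi * ww j * Real.cos (tt j / 2) ^ 2 *
    ((1 - r) ^ 2 / ((1 - r) ^ 2 + 4 * r * Real.sin (tt j / 2) ^ 2))

/-- `log |f(r)|` -/
noncomputable def yy (r : ℝ) : ℝ :=
  1001 * Real.log r - ∑' j : ℕ, mm j *
    ((1 - r ^ 2) / ((1 - r) ^ 2 + 4 * r * Real.sin (tt j / 2) ^ 2))

/-- Basic facts. `m_j ≤ (π/200) w_j`; `∑ w_j = 1` by telescoping. -/
def TaskBasic : Prop :=
  (∀ j, 0 < tt j ∧ tt j ≤ 1 / 100) ∧ (∀ j, 0 < mm j) ∧ Summable mm ∧ (∑' j, mm j) ≤ 1 / 50 ∧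
    Summable ww ∧ (∑' j, ww j) = 1

/-- `f` is analytic in the disc and `|f z| ≤ |z|^1001` there. Idea: the series of `H` converges locally
uniformly (`differentiableOn_tsum_of_summable_norm`), `Re ((ζ+z)/(ζ-z)) = (1-|z|²)/|ζ-z|² ≥ 0`, and
`Re H(-1) = 0`. You may assume TaskBasic. -/
def TaskHol : Prop :=
  TaskBasic → DifferentiableOn ℂ f (Metric.ball 0 1) ∧ ∀ z : ℂ, ‖z‖ < 1 → ‖f z‖ ≤ ‖z‖ ^ 1001

/-- Radial limits of modulus one off the atoms and off the point 1. Idea: the distance of `r e^{iθ}`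
to all the `ζ_j` is bounded below (the atoms accumulate only at 1), so dominated convergence
(`tendsto_tsum_of_dominated_convergence`) gives `H(r e^{iθ}) → H(e^{iθ})`, of real part 0. -/
def TaskInner : Prop :=
  TaskBasic → ∀ θ : ℝ, exp ((θ : ℂ) * I) ≠ 1 → (∀ j, exp ((θ : ℂ) * I) ≠ exp ((tt j : ℂ) * I)) →
    ∃ l : ℂ, ‖l‖ = 1 ∧ Tendsto (fun r : ℝ => f ((r : ℂ) * exp ((θ : ℂ) * I))) (𝓝[<] 1) (𝓝 l)

/-- The exceptional set has measure zero (it is countable). -/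
def TaskAE : Prop :=
  ∀ᵐ θ : ℝ, exp ((θ : ℂ) * I) ≠ 1 ∧ ∀ j, exp ((θ : ℂ) * I) ≠ exp ((tt j : ℂ) * I)

/-- The lift. Idea: `(e^{ia} - e^{-iζ}) / (e^{ia} + e^{-iζ}) = i tan ((a + ζ)/2)` if the cosine is not
zero, termwise in `H`, also at `-1 = E 0`; both series are summable (the tangents are bounded for
fixed `ζ`, as `a_j ∈ (0, 1/100]`; or use continuity on the compact set). -/
def TaskConj : Prop :=
  TaskBasic → ∀ ζ : ℂ, |ζ.re| ≤ 3 + 1 / 100 → f (E ζ) = E (G ζ)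

/-- Lipschitz bound of the lift near the real interval. Idea: `tan a - tan b = sin (a-b)/(cos a cos b)`,
`|cos (u + iv)| ≥ cos u ≥ 0.038` for `|u| ≤ 1.51`, `|sin z| ≤ 1.1 |z|` for small `z`, `∑ m_j ≤ 1/50`;
`1/0.038² * 0.55 / 50 < 8`. -/
def TaskLip : Prop :=
  TaskBasic → ∀ (x : ℝ) (ζ : ℂ), |x| ≤ 3 → ‖ζ - x‖ ≤ 1 / 100 → ‖G ζ - G x‖ ≤ 1010 * ‖ζ - x‖

/-- The lift on the real line. Idea: `tan a - tan b = sin (a-b)/(cos a cos b)` with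
`cos u ≥ 1 - 2u/π ≥ 0.038` for `|u| ≤ 1.51`; convexity of `tan` on `[0, π/2)` and `g 0 = 0` for the last
one (`g (2a) ≥ 2 g a` termwise, then monotonicity). -/
def TaskReal : Prop :=
  TaskBasic → (∀ x : ℝ, |x| ≤ 3 → G (x : ℂ) = ((g x : ℝ) : ℂ)) ∧
    (∀ x y : ℝ, -3 ≤ x → x ≤ y → y ≤ 3 → 1001 * (y - x) ≤ g y - g x) ∧
    (∀ x y : ℝ, -3 ≤ x → x ≤ y → y ≤ 3 → g y - g x ≤ 1010 * (y - x)) ∧
    (∀ a b : ℝ, 0 ≤ a → 2 * a ≤ b → b ≤ 1 → 2 * g a ≤ g b)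

/-- `f(r) = E(δ(r) + i log|f(r)|)`. Idea: for real `r`, `(ζ + r)/(ζ - r) = (1 - r² - 2 i r sin t)/|ζ-r|²`,
`|ζ - r|² = (1-r)² + 4 r sin²(t/2)`; `H(-1) = i ∑ m_j tan(t_j/2)`; the angle of `f(r)` is
`∑ m_j (2 r sin t/((1-r)²+4 r sin²(t/2)) + tan(t/2)) = π - δ(r)`, because
`m_j (cot(t/2) + tan(t/2)) = 2 m_j / sin t_j = π w_j` and `∑ w_j = 1`. -/
def TaskPathEq : Prop :=
  TaskBasic → ∀ r : ℝ, 0 < r → r < 1 → f (r : ℂ) = E ((dl r : ℂ) + (yy r : ℂ) * I)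

/-- Continuity and limit of `δ`. (`continuousOn_tsum`; dominated convergence with bound `π w_j`.) -/
def TaskPathCont : Prop :=
  TaskBasic → ContinuousOn dl (Set.Ioo 0 1) ∧ Tendsto dl (𝓝[<] 1) (𝓝 0) ∧
    ∀ r, 0 < r → r < 1 → 0 < dl r

/-- Tangential approach: `|log |f(r)|| ≤ C δ(r)²`. Idea: `s = 1 - r ≤ 1/200`, `J = min {j : t_j ≤ s}`.
`δ ≥ ∑_{j ≥ J} (π/4) w_j = (π/4)/(J+1)`. In `yy`: `j ≥ J`: `m_j 2s/s² ≤ π w_j t_j/s`, sum `≤ 2π w_J`;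
`j < J`: `m_j 2 s /(4 r sin²(t_j/2)) ≤ C w_j s/t_j`, `t_j ≥ 2^(J-1-j) s`, and
`∑_{j<J} w_j 2^{-(J-1-j)} ≤ 22/(J+1)²` as `(J-i)(i+2) ≥ J+1` for `0 ≤ i ≤ J-1`; `|log r| ≤ 2 s`,
`s < t_{J-1} ≤ 2^(1-J)/100`. -/
def TaskPathBound : Prop :=
  TaskBasic → ∃ C r₀ : ℝ, 0 < C ∧ 0 < r₀ ∧ r₀ < 1 ∧ ∀ r, r₀ ≤ r → r < 1 → |yy r| ≤ C * dl r ^ 2

/-- Real dynamics (abstract). From `[d, 2d]` the interval expands, by a factor between 1001 and 1010 in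
`[0, 1]`; when `g^i [d,2d] = [a, b]` with `b ∈ (1/1010, 1]`, `b ≥ 2a`, then `[g a, g b]` has length at
least `0.49`, hence contains mod 2π a subinterval of length 1/100 of `[-3,3]`, whose image has length
at least 10 > 2π + 0.2 and so covers `[0.9,1.1]` mod 2π, whose image covers `[-1.1,-0.9]` mod 2π, etc.
Then pull back (intermediate values). -/
def TaskChain : Prop :=
  ∀ g : ℝ → ℝ, ContinuousOn g (Set.Icc (-3) 3) → g 0 = 0 →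
    (∀ x y : ℝ, -3 ≤ x → x ≤ y → y ≤ 3 → 1001 * (y - x) ≤ g y - g x) →
    (∀ x y : ℝ, -3 ≤ x → x ≤ y → y ≤ 3 → g y - g x ≤ 1010 * (y - x)) →
    (∀ a b : ℝ, 0 ≤ a → 2 * a ≤ b → b ≤ 1 → 2 * g a ≤ g b) →
    ∀ (d : ℝ) (K : ℕ), 0 < d → d ≤ 1 / 4000 →
      ∃ (i : ℕ) (x : ℕ → ℝ), 1001 ^ i * d ≤ 1 ∧ d ≤ x 0 ∧ x 0 ≤ 2 * d ∧
        (∀ n ≤ i + 2 + K, |x n| ≤ 3) ∧
        (∀ n < i + 2 + K, ∃ k : ℤ, x (n + 1) = g (x n) - 2 * Real.pi * k) ∧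
        (∀ n ≤ K, |x (i + 2 + n) - (-1) ^ n| ≤ 1 / 10)

/-- Functional analysis: Banach-Steinhaus on `c₀` (sequences of tails `R_n`), `a_n = R_n - R_{n+1}`,
`∑ a_n X_j(n) = R_0 X_j(0) + ∑_{n≥1} R_n (X_j(n) - X_j(n-1))`. -/
def TaskBS : Prop :=
  ∀ {ι : Type} (X : ι → ℕ → ℂ), (∀ j, Summable fun n => ‖X j n‖) →
    (∀ K : ℝ, ∃ (j : ι) (M : ℕ), K ≤ ∑ n ∈ Finset.range M, ‖X j (n + 1) - X j n‖) →
    ∃ (a : ℕ → ℂ) (s : ℂ), Tendsto (fun n => ∑ k ∈ Finset.range n, a k) atTop (𝓝 s) ∧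
      ∀ K : ℝ, ∃ j : ι, K ≤ ‖∑' n, a n * X j n‖

end Pool.Agent.Q265.RL
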