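import Mathlib
import Pool.Agent.Q265.RL.Stmts

set_option autoImplicit false

open Filter Topology Complex

namespace Pool.Agent.Q265.RL

lemma E_periodic (ζ : ℂ) (k : ℤ) : E (ζ - 2 * Real.pi * k) = E ζ := by
  unfold E
  have : -(I * (ζ - 2 * Real.pi * k)) = -(I * ζ) + k * (2 * Real.pi * I) := by ring
  rw [this, Complex.exp_periodic.int_mul k]

lemma track (hB : TaskBasic) (hC : TaskConj) (hL : TaskLip) (hR : TaskReal) (N : ℕ) (x : ℕ → ℝ)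
    (hx : ∀ n ≤ N, |x n| ≤ 3) (hs : ∀ n < N, ∃ k : ℤ, x (n + 1) = g (x n) - 2 * Real.pi * k)
    (ζ₀ : ℂ) (h0 : 1010 ^ N * ‖ζ₀ - (x 0 : ℂ)‖ ≤ 1 / 100) (n : ℕ) (hn : n ≤ N) :
    ∃ ζ : ℂ, f^[n] (E ζ₀) = E ζ ∧ ‖ζ - (x n : ℂ)‖ ≤ 1010 ^ n * ‖ζ₀ - (x 0 : ℂ)‖ := by
  induction n with
  | zero => exact ⟨ζ₀, rfl, by simp⟩
  | succ n ih =>
    obtain ⟨ζ, h1, h2⟩ := ih (by omega)
    obtain ⟨k, hk⟩ := hs n (by omega)
    have h3 : ‖ζ - (x n : ℂ)‖ ≤ 1 / 100 := by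
      refine h2.trans (le_trans ?_ h0)
      refine mul_le_mul_of_nonneg_right ?_ (norm_nonneg _)
      exact pow_le_pow_right₀ (by norm_num) (by omega)
    have hxn := hx n (by omega)
    have h4 : |ζ.re| ≤ 3 + 1 / 100 := by
      have h5 : |(ζ - (x n : ℂ)).re| ≤ ‖ζ - (x n : ℂ)‖ := Complex.abs_re_le_norm _
      rw [Complex.sub_re, Complex.ofReal_re] at h5
      have h6 : |ζ.re| ≤ |ζ.re - x n| + |x n| := by
        have := abs_add_le (ζ.re - x n) (x n)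
        simpa using this
      linarith
    refine ⟨G ζ - 2 * Real.pi * k, ?_, ?_⟩
    · rw [Function.iterate_succ_apply', h1, hC hB ζ h4, E_periodic]
    · have h5 := hL hB (x n) ζ hxn h3
      rw [hk]
      have h6 : G ζ - 2 * Real.pi * k - ((g (x n) - 2 * Real.pi * k : ℝ) : ℂ) =
          G ζ - G (x n : ℂ) := by
        rw [(hR hB).1 (x n) hxn]
        push_cast
        ring
      rw [h6, pow_succ]
      calc ‖G ζ - G (x n : ℂ)‖ ≤ 1010 * ‖ζ - (x n : ℂ)‖ := h5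
        _ ≤ 1010 * (1010 ^ n * ‖ζ₀ - (x 0 : ℂ)‖) := by gcongr
        _ = _ := by ring

lemma E_near (ζ w : ℂ) (h : ‖ζ - w‖ ≤ 11 / 100) (hw : ‖E w‖ = 1) : ‖E ζ - E w‖ ≤ 22 / 100 := by
  have h1 : E ζ - E w = E w * (exp (-(I * (ζ - w))) - 1) := by
    unfold E
    have : exp (-(I * ζ)) = exp (-(I * w)) * exp (-(I * (ζ - w))) := by
      rw [← Complex.exp_add]; congr 1; ring
    rw [this]; ring
  have h2 : ‖-(I * (ζ - w))‖ = ‖ζ - w‖ := by simp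
  rw [h1, norm_mul, hw, one_mul]
  have h3 : ‖exp (-(I * (ζ - w))) - 1‖ ≤ 2 * ‖-(I * (ζ - w))‖ := by
    apply Complex.norm_exp_sub_one_le
    rw [h2]; linarith
  rw [h2] at h3
  linarith

lemma norm_E_real (x : ℝ) : ‖E (x : ℂ)‖ = 1 := by
  unfold E
  rw [norm_neg, Complex.norm_exp]
  simp

lemma E_one_neg_one : 3 / 2 ≤ ‖E ((1 : ℝ) : ℂ) - E ((-1 : ℝ) : ℂ)‖ := by
  have h1 : E ((1 : ℝ) : ℂ) - E ((-1 : ℝ) : ℂ) = 2 * I * (Real.sin 1 : ℂ) := by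
    unfold E
    push_cast
    rw [Complex.sin]
    have e1 : -(I * 1) = -1 * I := by ring
    have e2 : -(I * -1) = 1 * I := by ring
    rw [e1, e2]
    have : I * I = -1 := Complex.I_mul_I
    linear_combination (-(exp (-1 * I) - exp (1 * I))) * this
  rw [h1, norm_mul, norm_mul, Complex.norm_real, Complex.norm_I]
  have h2 := Real.sin_gt_sub_cube (x := 1) (by norm_num)
  rw [Real.norm_eq_abs]
  have h3 : (3:ℝ) / 4 < Real.sin 1 := by linarith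
  rw [abs_of_pos (by linarith)]
  norm_num
  linarith

lemma E_sub_ge (ζ ζ' : ℂ) (n : ℕ) (h : ‖ζ - (((-1) ^ n : ℝ) : ℂ)‖ ≤ 11 / 100)
    (h' : ‖ζ' - (((-1) ^ (n + 1) : ℝ) : ℂ)‖ ≤ 11 / 100) : 1 ≤ ‖E ζ' - E ζ‖ := by
  have h1 := E_near _ _ h (norm_E_real _)
  have h2 := E_near _ _ h' (norm_E_real _)
  have h3 : 3 / 2 ≤ ‖E (((-1) ^ (n + 1) : ℝ) : ℂ) - E (((-1) ^ n : ℝ) : ℂ)‖ := by
    rcases Nat.even_or_odd n with hn | hn
    · rw [hn.neg_one_pow, (hn.add_one).neg_one_pow, norm_sub_rev]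
      exact E_one_neg_one
    · rw [hn.neg_one_pow, (hn.add_one).neg_one_pow]
      exact E_one_neg_one
  have h4 : E (((-1) ^ (n + 1) : ℝ) : ℂ) - E (((-1) ^ n : ℝ) : ℂ) =
      -(E ζ' - E (((-1) ^ (n + 1) : ℝ) : ℂ)) + (E ζ' - E ζ) + (E ζ - E (((-1) ^ n : ℝ) : ℂ)) := by
    ring
  have h5 : ‖E (((-1) ^ (n + 1) : ℝ) : ℂ) - E (((-1) ^ n : ℝ) : ℂ)‖ ≤
      ‖E ζ' - E (((-1) ^ (n + 1) : ℝ) : ℂ)‖ + ‖E ζ' - E ζ‖ + ‖E ζ - E (((-1) ^ n : ℝ) : ℂ)‖ := by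
    rw [h4]
    refine (norm_add_le _ _).trans ?_
    gcongr
    refine (norm_add_le _ _).trans ?_
    rw [norm_neg]
  linarith

/-- the total variation of the orbit of `r` is unbounded -/
theorem variation (hB : TaskBasic) (hC : TaskConj) (hL : TaskLip) (hR : TaskReal)
    (hPE : TaskPathEq) (hPC : TaskPathCont) (hPB : TaskPathBound) (hCh : TaskChain) (K : ℝ) :
    ∃ (r : Set.Ioo (0:ℝ) 1) (M : ℕ), K ≤ ∑ n ∈ Finset.range M,
      ‖f^[n + 1 + 1] ((r : ℝ) : ℂ) - f^[n + 1] ((r : ℝ) : ℂ)‖ := by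
  obtain ⟨C, r₀, hC0, hr0, hr1, hbd⟩ := hPB hB
  obtain ⟨hcont, hlim, hpos⟩ := hPC hB
  obtain ⟨hGr, hlow, hup, hcv⟩ := hR hB
  obtain ⟨L, hLK⟩ := exists_nat_ge K
  set P : ℝ := 1010 ^ (2 + L) with hP
  have hP1 : 1 ≤ P := one_le_pow₀ (by norm_num)
  have hdr0 := hpos r₀ hr0 hr1
  -- choose d
  set d : ℝ := min (1 / 4000) (min (dl r₀ / 2) (1 / (160000 * C ^ 2 * P ^ 2))) with hd
  have hd0 : 0 < d := by
    rw [hd]
    refine lt_min (by norm_num) (lt_min (by linarith) (by positivity))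
  have hd1 : d ≤ 1 / 4000 := min_le_left _ _
  have hd2 : d ≤ dl r₀ / 2 := (min_le_right _ _).trans (min_le_left _ _)
  have hd3 : d ≤ 1 / (160000 * C ^ 2 * P ^ 2) := (min_le_right _ _).trans (min_le_right _ _)
  have hgc : ContinuousOn g (Set.Icc (-3) 3) := by
    refine Metric.continuousOn_iff.2 fun x hx ε hε => ⟨ε / 1011, by positivity, fun y hy hxy => ?_⟩
    rw [Real.dist_eq] at hxy ⊢
    have key : ∀ u v : ℝ, -3 ≤ u → u ≤ v → v ≤ 3 → |u - v| < ε / 1011 → |g u - g v| < ε := by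
      intro u v h1 h2 h3 h4
      have h5 := hlow u v h1 h2 h3
      have h6 := hup u v h1 h2 h3
      rw [abs_of_nonpos (by linarith)] at h4
      rw [abs_of_nonpos (by linarith)]
      have : (v - u) * 1011 < ε := by
        have := (lt_div_iff₀ (by norm_num : (0:ℝ) < 1011)).1 (by linarith : v - u < ε / 1011)
        exact this
      nlinarith
    rcases le_total y x with h | h
    · exact key y x hy.1 h hx.2 hxy
    · rw [abs_sub_comm] at hxy ⊢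
      exact key x y hx.1 h hy.2 hxy
  have hg0 : g 0 = 0 := by
    unfold g
    simp
  obtain ⟨i, x, hi, hx0, hx1, hx3, hstep, halt⟩ := hCh g hgc hg0 hlow hup hcv d L hd0 hd1
  -- the point `r` with `dl r = x 0`
  obtain ⟨r, hrr, hr, hrx⟩ : ∃ r : ℝ, r₀ ≤ r ∧ r < 1 ∧ dl r = x 0 := by
    -- a point near 1
    have h1 : ∀ᶠ r in 𝓝[<] (1:ℝ), dl r < d := (hlim.eventually_lt_const hd0)
    have h2 : ∀ᶠ r in 𝓝[<] (1:ℝ), r ∈ Set.Ioo r₀ 1 := Ioo_mem_nhdsLT hr1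
    obtain ⟨r₁, h3, h4⟩ := (h1.and h2).exists
    have h5 : ContinuousOn dl (Set.Icc r₀ r₁) :=
      hcont.mono fun y hy => ⟨hr0.trans_le hy.1, hy.2.trans_lt h4.2⟩
    have h6 : x 0 ∈ dl '' Set.Icc r₀ r₁ := by
      refine intermediate_value_Icc' h4.1.le h5 ⟨by linarith, by linarith⟩
    obtain ⟨r, h7, h8⟩ := h6
    exact ⟨r, h7.1, h7.2.trans_lt h4.2, h8⟩
  refine ⟨⟨r, hr0.trans_le hrr, hr⟩, i + 2 + L, ?_⟩
  have hfr : f (r : ℂ) = E ((dl r : ℂ) + (yy r : ℂ) * I) := hPE hB r (hr0.trans_le hrr) hr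
  have hy := hbd r hrr hr
  have hdist : ‖((dl r : ℂ) + (yy r : ℂ) * I) - (x 0 : ℂ)‖ ≤ 4 * C * d ^ 2 := by
    have : ((dl r : ℂ) + (yy r : ℂ) * I) - (x 0 : ℂ) = (yy r : ℂ) * I := by rw [← hrx]; ring
    rw [this, norm_mul, Complex.norm_I, mul_one, Complex.norm_real, Real.norm_eq_abs]
    rw [hrx] at hy
    have : x 0 ^ 2 ≤ (2 * d) ^ 2 := pow_le_pow_left₀ (by linarith) hx1 2
    nlinarith
  have hbig : (1010:ℝ) ^ (i + 2 + L) * (4 * C * d ^ 2) ≤ 1 / 100 := by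
    have h1 : ((1010:ℝ) ^ i) ^ 2 ≤ ((1001:ℝ) ^ i) ^ 3 := by
      rw [← pow_mul, ← pow_mul, mul_comm i 2, mul_comm i 3, pow_mul, pow_mul]
      exact pow_le_pow_left₀ (by norm_num) (by norm_num) i
    have h2 : ((1001:ℝ) ^ i) ^ 3 * d ^ 3 ≤ 1 := by
      rw [← mul_pow]
      exact pow_le_one₀ (by positivity) hi
    have h3 : (160000 * C ^ 2 * P ^ 2) * d ≤ 1 := by
      have := (le_div_iff₀ (by positivity)).1 hd3
      linarith
    have h4 : ((1010:ℝ) ^ i) ^ 2 * d ^ 3 ≤ 1 :=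
      (mul_le_mul_of_nonneg_right h1 (by positivity)).trans h2
    have h5 : ((1010:ℝ) ^ (i + 2 + L) * (4 * C * d ^ 2)) ^ 2 ≤ (1 / 100) ^ 2 := by
      have e : (1010:ℝ) ^ (i + 2 + L) = 1010 ^ i * P := by
        rw [hP, add_assoc, pow_add]
      rw [e]
      calc ((1010:ℝ) ^ i * P * (4 * C * d ^ 2)) ^ 2
          = (((1010:ℝ) ^ i) ^ 2 * d ^ 3) * ((160000 * C ^ 2 * P ^ 2) * d) / 10000 := by ring
        _ ≤ 1 * 1 / 10000 := by
            gcongr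
        _ = (1 / 100) ^ 2 := by norm_num
    exact (sq_le_sq₀ (by positivity) (by norm_num)).1 h5
  have htr := track hB hC hL hR (i + 2 + L) x hx3 hstep ((dl r : ℂ) + (yy r : ℂ) * I)
    ((mul_le_mul_of_nonneg_left hdist (by positivity)).trans hbig)
  have herr : ∀ n ≤ i + 2 + L,
      1010 ^ n * ‖((dl r : ℂ) + (yy r : ℂ) * I) - (x 0 : ℂ)‖ ≤ 1 / 100 := by
    intro n hn
    refine le_trans ?_ ((mul_le_mul_of_nonneg_left hdist (by positivity)).trans hbig)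
    refine mul_le_mul_of_nonneg_right ?_ (norm_nonneg _)
    exact pow_le_pow_right₀ (by norm_num) hn
  have hnear : ∀ n ≤ L, ∃ ζ : ℂ, f^[i + 2 + n + 1] (r : ℂ) = E ζ ∧
      ‖ζ - (((-1) ^ n : ℝ) : ℂ)‖ ≤ 11 / 100 := by
    intro n hn
    obtain ⟨ζ, h1, h2⟩ := htr (i + 2 + n) (by omega)
    refine ⟨ζ, by rw [Function.iterate_succ_apply, hfr, h1], ?_⟩
    have h3 := h2.trans (herr (i + 2 + n) (by omega))
    have h4 := halt n hn
    have h5 : ζ - (((-1) ^ n : ℝ) : ℂ) =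
        (ζ - (x (i + 2 + n) : ℂ)) + ((x (i + 2 + n) - (-1) ^ n : ℝ) : ℂ) := by
      push_cast; ring
    rw [h5]
    refine (norm_add_le _ _).trans ?_
    rw [Complex.norm_real, Real.norm_eq_abs]
    linarith
  have hge : ∀ n < L, 1 ≤ ‖f^[i + 2 + n + 1 + 1] (r : ℂ) - f^[i + 2 + n + 1] (r : ℂ)‖ := by
    intro n hn
    obtain ⟨ζ, h1, h2⟩ := hnear n hn.le
    obtain ⟨ζ', h1', h2'⟩ := hnear (n + 1) (by omega)
    have e : i + 2 + n + 1 + 1 = i + 2 + (n + 1) + 1 := by ring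
    rw [e, h1', h1]
    exact E_sub_ge ζ ζ' n h2 h2'
  refine hLK.trans ?_
  rw [Finset.sum_range_add]
  have h1 : 0 ≤ ∑ n ∈ Finset.range (i + 2),
      ‖f^[n + 1 + 1] ((r : ℝ) : ℂ) - f^[n + 1] ((r : ℝ) : ℂ)‖ :=
    Finset.sum_nonneg fun _ _ => norm_nonneg _
  have h2 : (L : ℝ) ≤ ∑ n ∈ Finset.range L,
      ‖f^[i + 2 + n + 1 + 1] ((r : ℝ) : ℂ) - f^[i + 2 + n + 1] ((r : ℝ) : ℂ)‖ := by
    calc (L : ℝ) = ∑ n ∈ Finset.range L, (1:ℝ) := by simp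
      _ ≤ _ := Finset.sum_le_sum fun n hn => hge n (Finset.mem_range.1 hn)
  linarith

end Pool.Agent.Q265.RL
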