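import Mathlib
import Pool.Agent.Q265.RL.Var

set_option autoImplicit false

open Filter Topology Complex

namespace Pool.Agent.Q265.RL

lemma iter_bound (hB : TaskBasic) (hH : TaskHol) (ρ : ℝ) (hρ1 : ρ < 1) (z : ℂ)
    (hz : ‖z‖ ≤ ρ) (n : ℕ) : ‖f^[n] z‖ ≤ ρ ^ (n + 1) := by
  have hρ0 : 0 ≤ ρ := (norm_nonneg _).trans hz
  induction n with
  | zero => simpa using hz
  | succ n ih =>
    rw [Function.iterate_succ_apply']
    have h1 : ‖f^[n] z‖ < 1 := lt_of_le_of_lt ih (pow_lt_one₀ hρ0 hρ1 (by omega))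
    refine ((hH hB).2 _ h1).trans ?_
    calc ‖f^[n] z‖ ^ 1001 ≤ ‖f^[n] z‖ ^ 2 :=
          pow_le_pow_of_le_one (norm_nonneg _) h1.le (by norm_num)
      _ ≤ (ρ ^ (n + 1)) ^ 2 := pow_le_pow_left₀ (norm_nonneg _) ih 2
      _ = ρ ^ (2 * (n + 1)) := by rw [← pow_mul, mul_comm]
      _ ≤ ρ ^ (n + 1 + 1) := pow_le_pow_of_le_one hρ0 hρ1.le (by omega)

lemma iter_maps (hB : TaskBasic) (hH : TaskHol) (n : ℕ) :
    Set.MapsTo (f^[n]) (Metric.ball 0 1) (Metric.ball 0 1) := by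
  intro z hz
  rw [mem_ball_zero_iff] at hz ⊢
  exact lt_of_le_of_lt (iter_bound hB hH ‖z‖ hz z le_rfl n)
    (pow_lt_one₀ (norm_nonneg _) hz (by omega))

lemma iter_diff (hB : TaskBasic) (hH : TaskHol) (n : ℕ) :
    DifferentiableOn ℂ (f^[n]) (Metric.ball 0 1) := by
  induction n with
  | zero => exact differentiableOn_id
  | succ n ih =>
    rw [Function.iterate_succ']
    exact (hH hB).1.comp ih (iter_maps hB hH n)

lemma series_diff (hB : TaskBasic) (hH : TaskHol) (a : ℕ → ℂ) (A : ℝ) (hA : ∀ n, ‖a n‖ ≤ A) :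
    (∀ z ∈ Metric.ball (0:ℂ) 1, Summable fun n => a n * f^[n + 1] z) ∧
    DifferentiableOn ℂ (fun z => ∑' n, a n * f^[n + 1] z) (Metric.ball 0 1) := by
  have hA0 : 0 ≤ A := (norm_nonneg _).trans (hA 0)
  have hb : ∀ ρ : ℝ, ρ < 1 → ∀ z : ℂ, ‖z‖ ≤ ρ → ∀ n, ‖a n * f^[n + 1] z‖ ≤ A * ρ ^ n := by
    intro ρ hρ1 z hz n
    have hρ0 : 0 ≤ ρ := (norm_nonneg _).trans hz
    rw [norm_mul]
    have h1 := iter_bound hB hH ρ hρ1 z hz (n + 1)
    have h2 : ρ ^ (n + 1 + 1) ≤ ρ ^ n := pow_le_pow_of_le_one hρ0 hρ1.le (by omega)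
    have h3 := hA n
    have h4 := norm_nonneg (a n)
    have h5 := norm_nonneg (f^[n + 1] z)
    calc ‖a n‖ * ‖f^[n + 1] z‖ ≤ A * ρ ^ n := by
          apply mul_le_mul h3 (h1.trans h2) h5 hA0
      _ = _ := rfl
  have hs : ∀ ρ : ℝ, 0 ≤ ρ → ρ < 1 → Summable fun n : ℕ => A * ρ ^ n := fun ρ h0 h1 =>
    (summable_geometric_of_lt_one h0 h1).mul_left A
  refine ⟨fun z hz => ?_, fun z hz => ?_⟩
  · rw [mem_ball_zero_iff] at hz
    exact Summable.of_norm_bounded (hs ‖z‖ (norm_nonneg _) hz) (hb ‖z‖ hz z le_rfl)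
  · rw [mem_ball_zero_iff] at hz
    obtain ⟨ρ, h1, h2⟩ := exists_between hz
    have hρ0 : 0 ≤ ρ := (norm_nonneg _).trans h1.le
    have h3 : DifferentiableOn ℂ (fun z => ∑' n, a n * f^[n + 1] z) (Metric.ball 0 ρ) := by
      refine differentiableOn_tsum_of_summable_norm (hs ρ hρ0 h2) (fun n => ?_)
        Metric.isOpen_ball (fun n w hw => ?_)
      · refine DifferentiableOn.const_mul ?_ _
        exact (iter_diff hB hH (n + 1)).mono (Metric.ball_subset_ball h2.le)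
      · exact hb ρ h2 w (mem_ball_zero_iff.1 hw).le n
    have h4 : Metric.ball (0:ℂ) ρ ∈ 𝓝 z := Metric.isOpen_ball.mem_nhds (mem_ball_zero_iff.2 h1)
    exact (h3.differentiableAt h4).differentiableWithinAt

/-- the radial limits of the iterates at `1` -/
lemma radial (hB : TaskBasic) (hC : TaskConj) (hL : TaskLip) (hR : TaskReal)
    (hPE : TaskPathEq) (hPC : TaskPathCont) (hPB : TaskPathBound) (n : ℕ) :
    Tendsto (fun r : ℝ => f^[n + 1] ((r : ℂ) * 1)) (𝓝[<] 1) (𝓝 (-1)) := by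
  obtain ⟨C, r₀, hC0, hr0, hr1, hbd⟩ := hPB hB
  obtain ⟨hcont, hlim, hpos⟩ := hPC hB
  have hev : ∀ᶠ r in 𝓝[<] (1:ℝ), r ∈ Set.Ioo r₀ 1 := Ioo_mem_nhdsLT hr1
  have hy : Tendsto yy (𝓝[<] 1) (𝓝 0) := by
    have h1 : Tendsto (fun r => C * dl r ^ 2) (𝓝[<] 1) (𝓝 0) := by
      have := (hlim.pow 2).const_mul C
      simpa using this
    refine squeeze_zero_norm' ?_ h1
    filter_upwards [hev] with r hr
    exact hbd r hr.1.le hr.2
  have hζ : Tendsto (fun r : ℝ => ((dl r : ℂ) + (yy r : ℂ) * I)) (𝓝[<] 1) (𝓝 0) := by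
    have h1 : Tendsto (fun r : ℝ => (dl r : ℂ)) (𝓝[<] 1) (𝓝 ((0:ℝ) : ℂ)) :=
      (Complex.continuous_ofReal.tendsto 0).comp hlim
    have h2 : Tendsto (fun r : ℝ => (yy r : ℂ)) (𝓝[<] 1) (𝓝 ((0:ℝ) : ℂ)) :=
      (Complex.continuous_ofReal.tendsto 0).comp hy
    have := h1.add (h2.mul_const I)
    simpa using this
  have hg0 : g 0 = 0 := by unfold g; simp
  have hE0 : E 0 = -1 := by unfold E; simp
  rw [tendsto_iff_norm_sub_tendsto_zero]
  have hbound : Tendsto (fun r : ℝ => 2 * (1010 ^ n * ‖((dl r : ℂ) + (yy r : ℂ) * I)‖)) (𝓝[<] 1)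
      (𝓝 0) := by
    have := (hζ.norm.const_mul ((1010:ℝ) ^ n)).const_mul 2
    simpa using this
  refine squeeze_zero' (Eventually.of_forall fun _ => norm_nonneg _) ?_ hbound
  have hsmall : ∀ᶠ r in 𝓝[<] (1:ℝ), ‖((dl r : ℂ) + (yy r : ℂ) * I)‖ < 1 / 100 / 1010 ^ n := by
    have h1 := hζ.norm
    rw [norm_zero] at h1
    exact h1.eventually_lt_const (by positivity)
  filter_upwards [hev, hsmall] with r hr hsm
  obtain ⟨ζ, h1, h2⟩ := track hB hC hL hR n (fun _ => 0) (fun _ _ => by simp)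
    (fun _ _ => ⟨0, by simp [hg0]⟩) ((dl r : ℂ) + (yy r : ℂ) * I) (by
      have := (lt_div_iff₀ (by positivity)).1 hsm
      push_cast
      rw [sub_zero, mul_comm]
      exact this.le) n le_rfl
  rw [mul_one, Function.iterate_succ_apply, hPE hB r (hr0.trans hr.1) hr.2, h1]
  push_cast at h2
  rw [sub_zero, sub_zero] at h2
  have h3 : 1010 ^ n * ‖((dl r : ℂ) + (yy r : ℂ) * I)‖ ≤ 1 / 100 := by
    have := (lt_div_iff₀ (by positivity)).1 hsm
    rw [mul_comm]; exact this.le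
  have h4 : E ζ - -1 = -(exp (-(I * ζ)) - 1) := by unfold E; ring
  rw [h4, norm_neg]
  have h5 : ‖exp (-(I * ζ)) - 1‖ ≤ 2 * ‖-(I * ζ)‖ := by
    apply Complex.norm_exp_sub_one_le
    simp; linarith
  have h6 : ‖-(I * ζ)‖ = ‖ζ‖ := by simp
  rw [h6] at h5
  linarith

theorem main (hB : TaskBasic) (hH : TaskHol) (hI : TaskInner) (hAE : TaskAE) (hC : TaskConj)
    (hL : TaskLip) (hR : TaskReal) (hPE : TaskPathEq) (hPC : TaskPathCont) (hPB : TaskPathBound)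
    (hCh : TaskChain) (hBS : TaskBS) :
    ∃ (f : ℂ → ℂ) (a : ℕ → ℂ) (ξ : ℂ) (l : ℕ → ℂ) (s : ℂ),
      (DifferentiableOn ℂ f (Metric.ball 0 1) ∧
        Set.MapsTo f (Metric.ball 0 1) (Metric.ball 0 1) ∧
        ∀ᵐ θ : ℝ, ∃ l : ℂ, ‖l‖ = 1 ∧
          Tendsto (fun r : ℝ => f ((r : ℂ) * exp ((θ : ℂ) * I))) (𝓝[<] 1) (𝓝 l)) ∧
      f 0 = 0 ∧
      (¬ ∃ c : ℂ, ‖c‖ = 1 ∧ ∀ z ∈ Metric.ball (0:ℂ) 1, f z = c * z) ∧
      (∀ z ∈ Metric.ball (0:ℂ) 1, Summable fun n => a n * f^[n + 1] z) ∧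
      DifferentiableOn ℂ (fun z => ∑' n, a n * f^[n + 1] z) (Metric.ball 0 1) ∧
      ‖ξ‖ = 1 ∧
      (∀ n, Tendsto (fun r : ℝ => f^[n + 1] ((r : ℂ) * ξ)) (𝓝[<] 1) (𝓝 (l n))) ∧
      Tendsto (fun N => ∑ n ∈ Finset.range N, a n * l n) atTop (𝓝 s) ∧
      (∀ K : ℝ, ∃ᶠ r : ℝ in 𝓝[<] 1, K ≤ ‖∑' n, a n * f^[n + 1] ((r : ℂ) * ξ)‖) := by
  obtain ⟨a, s, has, hau⟩ := hBS (ι := Set.Ioo (0:ℝ) 1) (fun r n => f^[n + 1] ((r : ℝ) : ℂ))
    (fun r => by
      have hr : ‖((r : ℝ) : ℂ)‖ ≤ (r : ℝ) := by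
        rw [Complex.norm_real, Real.norm_eq_abs, abs_of_pos r.2.1]
      refine Summable.of_nonneg_of_le (fun _ => norm_nonneg _)
        (fun n => iter_bound hB hH r r.2.2 _ hr (n + 1)) ?_
      simp_rw [pow_succ]
      exact ((summable_geometric_of_lt_one r.2.1.le r.2.2).mul_right _).mul_right _)
    (fun K => by
      obtain ⟨r, M, h⟩ := variation hB hC hL hR hPE hPC hPB hCh K
      exact ⟨r, M, h⟩)
  obtain ⟨A, hA⟩ : ∃ A : ℝ, ∀ n, ‖a n‖ ≤ A := by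
    have h1 : Tendsto (fun n => ∑ k ∈ Finset.range (n + 1), a k - ∑ k ∈ Finset.range n, a k)
        atTop (𝓝 (s - s)) := (has.comp (tendsto_add_atTop_nat 1)).sub has
    simp only [Finset.sum_range_succ, add_sub_cancel_left] at h1
    obtain ⟨A, hA⟩ := h1.norm.bddAbove_range
    exact ⟨A, fun n => hA ⟨n, rfl⟩⟩
  obtain ⟨hsum, hdiff⟩ := series_diff hB hH a A hA
  refine ⟨f, a, 1, fun _ => -1, -s, ⟨(hH hB).1, fun z hz => ?_, ?_⟩, ?_, ?_, hsum, hdiff,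
    norm_one, radial hB hC hL hR hPE hPC hPB, ?_, ?_⟩
  · rw [mem_ball_zero_iff] at hz ⊢
    exact lt_of_le_of_lt ((hH hB).2 z hz) (pow_lt_one₀ (norm_nonneg _) hz (by norm_num))
  · filter_upwards [hAE] with θ hθ
    exact hI hB θ hθ.1 hθ.2
  · unfold f; simp
  · rintro ⟨c, hc, h⟩
    have h1 : ‖(1 / 2 : ℂ)‖ = 1 / 2 := by norm_num
    have h2 := (hH hB).2 (1 / 2) (by rw [h1]; norm_num)
    rw [h (1 / 2) (by rw [mem_ball_zero_iff, h1]; norm_num), norm_mul, hc, one_mul, h1] at h2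
    have h3 : (1 / 2 : ℝ) ^ 1001 ≤ (1 / 2) ^ 2 :=
      pow_le_pow_of_le_one (by norm_num) (by norm_num) (by norm_num)
    exact absurd (h2.trans h3) (by norm_num)
  · have := has.neg
    refine this.congr fun N => ?_
    rw [← Finset.sum_neg_distrib]
    exact Finset.sum_congr rfl fun _ _ => by ring
  · intro K
    by_contra hcon
    rw [Filter.not_frequently] at hcon
    simp only [mul_one, not_le] at hcon
    obtain ⟨r₁, hr₁, hK⟩ := (mem_nhdsLT_iff_exists_Ioo_subset).1 hcon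
    rw [Set.mem_Iio] at hr₁
    -- boundedness on the compact part
    have hc : ContinuousOn (fun r : ℝ => ∑' n, a n * f^[n + 1] (r : ℂ)) (Set.Icc 0 (max r₁ 0)) := by
      refine hdiff.continuousOn.comp Complex.continuous_ofReal.continuousOn fun r hr => ?_
      rw [mem_ball_zero_iff, Complex.norm_real, Real.norm_eq_abs, abs_of_nonneg hr.1]
      exact lt_of_le_of_lt hr.2 (max_lt hr₁ one_pos)
    obtain ⟨B, hB'⟩ := isCompact_Icc.exists_bound_of_continuousOn hc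
    obtain ⟨r, hr⟩ := hau (max K B + 1)
    have h1 : ‖∑' n, a n * f^[n + 1] ((r : ℝ) : ℂ)‖ ≤ max K B := by
      rcases le_or_gt (r : ℝ) r₁ with h | h
      · exact (hB' r ⟨r.2.1.le, h.trans (le_max_left _ _)⟩).trans (le_max_right _ _)
      · exact (hK ⟨h, r.2.2⟩).le.trans (le_max_left _ _)
    linarith

end Pool.Agent.Q265.RL
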