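import Pool.Agent.Q265.RL.Stmts

set_option autoImplicit false

open Filter Topology Complex

namespace Pool.Agent.Q265.RL.Hol

theorem nsq (t : ℝ) : normSq (exp ((t : ℂ) * I)) = 1 := by
  rw [Complex.normSq_eq_norm_sq, Complex.norm_exp_ofReal_mul_I]
  norm_num

theorem re_quot (ζ z : ℂ) (h : normSq ζ = 1) :
    ((ζ + z) / (ζ - z)).re = (1 - normSq z) / normSq (ζ - z) := by
  rw [Complex.div_re, ← add_div, ← h]
  congr 1
  simp only [Complex.add_re, Complex.sub_re, Complex.add_im, Complex.sub_im, Complex.normSq_apply]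
  ring

theorem re_H (z : ℂ) (hm : ∀ j, 0 < mm j) (hz : ‖z‖ < 1) : 0 ≤ (H z).re := by
  unfold H
  by_cases hs : Summable fun j : ℕ => (mm j : ℂ) * ((exp ((tt j : ℂ) * I) + z) /
      (exp ((tt j : ℂ) * I) - z))
  · rw [Complex.re_tsum hs]
    refine tsum_nonneg fun j => ?_
    rw [Complex.re_ofReal_mul, re_quot _ _ (nsq _)]
    have h1 : normSq z ≤ 1 := by
      rw [Complex.normSq_eq_norm_sq]
      nlinarith [norm_nonneg z]
    have h2 : 0 ≤ normSq (exp ((tt j : ℂ) * I) - z) := normSq_nonneg _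
    exact mul_nonneg (hm j).le (div_nonneg (by linarith) h2)
  · rw [tsum_eq_zero_of_not_summable hs]
    simp

theorem re_H1 : (H (-1)).re = 0 := by
  unfold H
  by_cases hs : Summable fun j : ℕ => (mm j : ℂ) * ((exp ((tt j : ℂ) * I) + (-1)) /
      (exp ((tt j : ℂ) * I) - (-1)))
  · rw [Complex.re_tsum hs]
    have : (fun j : ℕ => ((mm j : ℂ) * ((exp ((tt j : ℂ) * I) + (-1)) /
      (exp ((tt j : ℂ) * I) - (-1)))).re) = fun _ => 0 := by
      funext j
      rw [Complex.re_ofReal_mul, re_quot _ _ (nsq _)]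
      simp
    rw [this, tsum_zero]
  · rw [tsum_eq_zero_of_not_summable hs]
    simp

theorem diff_H (hm : ∀ j, 0 < mm j) (hs : Summable mm) (ρ : ℝ) (hρ : ρ < 1) :
    DifferentiableOn ℂ H (Metric.ball 0 ρ) := by
  unfold H
  have hρ1 : 0 < 1 - ρ := by linarith
  refine differentiableOn_tsum_of_summable_norm (u := fun j => mm j * (2 / (1 - ρ)))
    (hs.mul_right _) (fun j => ?_) Metric.isOpen_ball (fun j w hw => ?_)
  · intro z hz
    have hz : ‖z‖ < ρ := by simpa using hz
    have h1 : exp ((tt j : ℂ) * I) - z ≠ 0 := by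
      intro h
      have h2 : exp ((tt j : ℂ) * I) = z := sub_eq_zero.1 h
      have h3 : ‖z‖ = 1 := by rw [← h2, Complex.norm_exp_ofReal_mul_I]
      linarith
    apply DifferentiableAt.differentiableWithinAt
    exact (differentiableAt_const _).mul
      (((differentiableAt_const _).add differentiableAt_id).div
        ((differentiableAt_const _).sub differentiableAt_id) h1)
  · have hw : ‖w‖ < ρ := by simpa using hw
    have e1 : ‖exp ((tt j : ℂ) * I)‖ = 1 := Complex.norm_exp_ofReal_mul_I _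
    have h1 : ‖exp ((tt j : ℂ) * I) + w‖ ≤ 2 := by
      refine (norm_add_le _ _).trans ?_
      rw [e1]
      linarith
    have h2 : 1 - ρ ≤ ‖exp ((tt j : ℂ) * I) - w‖ := by
      have := norm_sub_norm_le (exp ((tt j : ℂ) * I)) w
      rw [e1] at this
      linarith
    rw [norm_mul, norm_div, Complex.norm_real, Real.norm_of_nonneg (hm j).le]
    exact mul_le_mul_of_nonneg_left (div_le_div₀ (by norm_num) h1 hρ1 h2) (hm j).le

end Pool.Agent.Q265.RL.Hol

namespace Pool.Agent.Q265.RL

theorem taskHol : TaskHol := by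
  rintro ⟨-, hm, hs, -⟩
  refine ⟨fun z hz => ?_, fun z hz => ?_⟩
  · have hz : ‖z‖ < 1 := by simpa using hz
    have h1 : DifferentiableAt ℂ H z := by
      refine (Hol.diff_H hm hs ((1 + ‖z‖) / 2) (by linarith)).differentiableAt ?_
      apply Metric.isOpen_ball.mem_nhds
      rw [Metric.mem_ball, dist_zero_right]
      linarith
    apply DifferentiableAt.differentiableWithinAt
    unfold f
    exact (differentiableAt_id.pow 1001).mul ((h1.sub (differentiableAt_const _)).neg.cexp)
  · unfold f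
    rw [norm_mul, norm_pow, Complex.norm_exp]
    have h1 := Hol.re_H z hm hz
    have h2 : Real.exp (-(H z - H (-1))).re ≤ 1 := by
      rw [Real.exp_le_one_iff, Complex.neg_re, Complex.sub_re, Hol.re_H1]
      linarith
    calc ‖z‖ ^ 1001 * Real.exp (-(H z - H (-1))).re ≤ ‖z‖ ^ 1001 * 1 :=
          mul_le_mul_of_nonneg_left h2 (by positivity)
      _ = ‖z‖ ^ 1001 := mul_one _

end Pool.Agent.Q265.RL
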