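import Pool.Agent.Q265.RL.Stmts

set_option autoImplicit false

open Filter Topology Complex

namespace Pool.Agent.Q265.RL

lemma inner_re_tsum {a : ℕ → ℂ} (h : ∀ j, (a j).re = 0) : (∑' j, a j).re = 0 := by
  by_cases hs : Summable a
  · rw [Complex.re_tsum hs]
    simp [h]
  · rw [tsum_eq_zero_of_not_summable hs]
    simp

lemma inner_quot {ζ z : ℂ} (hζ : ‖ζ‖ = 1) (hz : ‖z‖ = 1) : ((ζ + z) / (ζ - z)).re = 0 := by
  have h1 : ζ.re * ζ.re + ζ.im * ζ.im = 1 := by
    rw [← Complex.normSq_apply, Complex.normSq_eq_norm_sq, hζ]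
    norm_num
  have h2 : z.re * z.re + z.im * z.im = 1 := by
    rw [← Complex.normSq_apply, Complex.normSq_eq_norm_sq, hz]
    norm_num
  rw [Complex.div_re, ← add_div]
  have : (ζ + z).re * (ζ - z).re + (ζ + z).im * (ζ - z).im = 0 := by
    simp only [Complex.add_re, Complex.sub_re, Complex.add_im, Complex.sub_im]
    linarith
  rw [this, zero_div]

lemma inner_H {z : ℂ} (hz : ‖z‖ = 1) : (H z).re = 0 := by
  unfold H
  refine inner_re_tsum fun j => ?_
  rw [Complex.re_ofReal_mul, inner_quot (Complex.norm_exp_ofReal_mul_I _) hz, mul_zero]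

theorem taskInner : TaskInner := by
  intro hB θ hθ1 hθ
  obtain ⟨htt, hmm, hsum, -, -, -⟩ := hB
  obtain ⟨e, he⟩ : ∃ e : ℂ, e = exp ((θ : ℂ) * I) := ⟨_, rfl⟩
  have hen : ‖e‖ = 1 := by
    rw [he]
    exact Complex.norm_exp_ofReal_mul_I _
  obtain ⟨ζ, hζ⟩ : ∃ ζ : ℕ → ℂ, ζ = fun j => exp ((tt j : ℂ) * I) := ⟨_, rfl⟩
  have hζn : ∀ j, ‖ζ j‖ = 1 := fun j => by
    rw [hζ]
    exact Complex.norm_exp_ofReal_mul_I _
  have hne : ∀ j, 0 < ‖ζ j - e‖ := fun j => by
    rw [norm_pos_iff, sub_ne_zero, hζ, he]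
    exact (hθ j).symm
  have htend : Tendsto ζ atTop (𝓝 1) := by
    have h1 : Tendsto tt atTop (𝓝 0) := by
      have := (tendsto_pow_atTop_nhds_zero_of_lt_one (show (0 : ℝ) ≤ 1 / 2 by norm_num) (by norm_num)).const_mul
        (1 / 100 : ℝ)
      rw [mul_zero] at this
      exact this
    have h2 : Continuous fun x : ℝ => exp ((x : ℂ) * I) := by fun_prop
    have h3 := (h2.tendsto 0).comp h1
    simp only [ofReal_zero, zero_mul, exp_zero] at h3
    rw [hζ]
    exact h3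
  obtain ⟨B, hB0, hB⟩ : ∃ B : ℝ, 0 < B ∧ ∀ j, ‖ζ j - e‖⁻¹ ≤ B := by
    have h1 : Tendsto (fun j => ‖ζ j - e‖⁻¹) atTop (𝓝 ‖(1 : ℂ) - e‖⁻¹) := by
      refine ((htend.sub_const e).norm).inv₀ ?_
      rw [norm_ne_zero_iff, sub_ne_zero, he]
      exact hθ1.symm
    obtain ⟨B, hB⟩ := h1.bddAbove_range
    refine ⟨max B 1, lt_of_lt_of_le one_pos (le_max_right _ _), fun j => le_trans (hB ⟨j, rfl⟩) (le_max_left _ _)⟩
  have hlow : ∀ j, 1 / B ≤ ‖ζ j - e‖ := fun j => by
    rw [div_le_iff₀ hB0]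
    have h1 := hB j
    have h2 := hne j
    calc (1 : ℝ) = ‖ζ j - e‖ * ‖ζ j - e‖⁻¹ := (mul_inv_cancel₀ h2.ne').symm
      _ ≤ ‖ζ j - e‖ * B := mul_le_mul_of_nonneg_left h1 h2.le
  have hH : Tendsto (fun r : ℝ => H ((r : ℂ) * e)) (𝓝[<] 1) (𝓝 (H e)) := by
    unfold H
    refine tendsto_tsum_of_dominated_convergence (bound := fun j => mm j * (4 * B)) (hsum.mul_right _) (fun j => ?_) ?_
    · have hc : ContinuousAt (fun r : ℝ => (mm j : ℂ) * ((exp ((tt j : ℂ) * I) + (r : ℂ) * e) /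
          (exp ((tt j : ℂ) * I) - (r : ℂ) * e))) 1 := by
        refine ContinuousAt.mul continuousAt_const (ContinuousAt.div (by fun_prop) (by fun_prop) ?_)
        have h1 := hne j
        rw [hζ] at h1
        simpa using h1
      have h2 := hc.tendsto.mono_left (nhdsWithin_le_nhds (s := Set.Iio (1 : ℝ)))
      simpa using h2
    · have hr : Set.Ioo (1 - 1 / (2 * B)) 1 ∈ 𝓝[<] (1 : ℝ) := by
        refine Ioo_mem_nhdsLT ?_
        have : 0 < 1 / (2 * B) := by positivity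
        linarith
      have hr0 : Set.Ioo (0 : ℝ) 1 ∈ 𝓝[<] (1 : ℝ) := Ioo_mem_nhdsLT one_pos
      filter_upwards [hr, hr0] with r h1 h2 j
      have h3 : ‖(r : ℂ) * e‖ = r := by
        rw [norm_mul, hen, mul_one, Complex.norm_real, Real.norm_eq_abs, abs_of_pos h2.1]
      have h4 : ‖exp ((tt j : ℂ) * I) + (r : ℂ) * e‖ ≤ 2 := by
        refine (norm_add_le _ _).trans ?_
        rw [h3, Complex.norm_exp_ofReal_mul_I]
        linarith [h2.2]
      have h5 : 1 / (2 * B) ≤ ‖exp ((tt j : ℂ) * I) - (r : ℂ) * e‖ := by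
        have h6 : ζ j - e = (exp ((tt j : ℂ) * I) - (r : ℂ) * e) - (1 - (r : ℂ)) * e := by
          rw [hζ]
          ring
        have h7 : ‖ζ j - e‖ ≤ ‖exp ((tt j : ℂ) * I) - (r : ℂ) * e‖ + (1 - r) := by
          rw [h6]
          refine (norm_sub_le _ _).trans ?_
          rw [norm_mul, hen, mul_one]
          have h8 : ‖(1 : ℂ) - (r : ℂ)‖ = 1 - r := by
            rw [← ofReal_one, ← ofReal_sub, Complex.norm_real, Real.norm_eq_abs, abs_of_nonneg (by linarith [h2.2])]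
          rw [h8]
        have h9 := hlow j
        have h10 : 1 / B = 1 / (2 * B) + 1 / (2 * B) := by
          field_simp
          norm_num
        have h11 := h1.1
        linarith
      have h12 : 0 < 1 / (2 * B) := by positivity
      rw [norm_mul, Complex.norm_real, Real.norm_eq_abs, abs_of_pos (hmm j), norm_div]
      refine mul_le_mul_of_nonneg_left ?_ (hmm j).le
      rw [div_le_iff₀ (lt_of_lt_of_le h12 h5)]
      calc ‖exp ((tt j : ℂ) * I) + (r : ℂ) * e‖ ≤ 2 := h4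
        _ = 4 * B * (1 / (2 * B)) := by
            field_simp
            norm_num
        _ ≤ _ := mul_le_mul_of_nonneg_left h5 (by positivity)
  refine ⟨e ^ 1001 * exp (-(H e - H (-1))), ?_, ?_⟩
  · rw [norm_mul, norm_pow, hen, one_pow, one_mul, Complex.norm_exp]
    have h1 := inner_H hen
    have h2 : (H (-1)).re = 0 := inner_H (by simp)
    rw [Complex.neg_re, Complex.sub_re, h1, h2]
    simp
  · rw [← he]
    unfold f
    refine Tendsto.mul ?_ ?_
    · have hc : ContinuousAt (fun r : ℝ => ((r : ℂ) * e) ^ 1001) 1 := by fun_prop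
      have h2 := hc.tendsto.mono_left (nhdsWithin_le_nhds (s := Set.Iio (1 : ℝ)))
      simpa using h2
    · exact (Complex.continuous_exp.tendsto _).comp ((hH.sub_const _).neg)

end Pool.Agent.Q265.RL
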