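import Pool.Agent.Q265.RL.Stmts

set_option autoImplicit false

open Filter Topology Complex

namespace Pool.Agent.Q265.RL

private theorem lip_cos_real {u : ℝ} (hu : |u| ≤ 1.51) : 0.038 ≤ Real.cos u := by
  have hpi := Real.pi_gt_d4
  have h1 : Real.cos u = Real.sin (Real.pi / 2 - |u|) := by
    rw [Real.sin_pi_div_two_sub, Real.cos_abs]
  have h2 : 0 ≤ Real.pi / 2 - |u| := by linarith
  have h3 : Real.pi / 2 - |u| ≤ Real.pi / 2 := by linarith [abs_nonneg u]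
  have h4 := Real.mul_le_sin h2 h3
  rw [h1]
  refine le_trans ?_ h4
  have h5 : 2 / Real.pi * (Real.pi / 2 - |u|) = 1 - 2 * |u| / Real.pi := by
    field_simp
  rw [h5]
  have h6 : 2 * |u| / Real.pi ≤ 0.962 := by
    rw [div_le_iff₀ Real.pi_pos]
    nlinarith
  linarith

private theorem lip_cos {z : ℂ} (hz : |z.re| ≤ 1.51) : 0.038 ≤ ‖Complex.cos z‖ := by
  have h1 := Complex.abs_re_le_norm (Complex.cos z)
  have h2 : (Complex.cos z).re = Real.cos z.re * Real.cosh z.im := by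
    rw [Complex.cos_eq]
    simp [← Complex.ofReal_cos, ← Complex.ofReal_cosh, ← Complex.ofReal_sin, ← Complex.ofReal_sinh]
  have h3 := lip_cos_real hz
  have h4 := Real.one_le_cosh z.im
  refine le_trans ?_ h1
  rw [h2, abs_of_nonneg (mul_nonneg (by linarith) (by linarith))]
  nlinarith

private theorem lip_tan {a b : ℂ} (ha : |a.re| ≤ 1.51) (hb : |b.re| ≤ 1.51) :
    ‖Complex.tan a - Complex.tan b‖ ≤ 693 * ‖Complex.sin (a - b)‖ := by
  have h1 := lip_cos ha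
  have h2 := lip_cos hb
  have ha0 : Complex.cos a ≠ 0 := by
    intro h
    rw [h, norm_zero] at h1
    norm_num at h1
  have hb0 : Complex.cos b ≠ 0 := by
    intro h
    rw [h, norm_zero] at h2
    norm_num at h2
  have e : Complex.tan a - Complex.tan b = Complex.sin (a - b) / (Complex.cos a * Complex.cos b) := by
    rw [Complex.tan_eq_sin_div_cos, Complex.tan_eq_sin_div_cos, div_sub_div _ _ ha0 hb0,
      Complex.sin_sub]
  rw [e, norm_div, norm_mul]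
  have h3 : 0.038 * 0.038 ≤ ‖Complex.cos a‖ * ‖Complex.cos b‖ :=
    mul_le_mul h1 h2 (by norm_num) (norm_nonneg _)
  rw [div_le_iff₀ (by nlinarith)]
  have h4 := norm_nonneg (Complex.sin (a - b))
  nlinarith

private theorem lip_sin {w : ℂ} (hw : ‖w‖ ≤ 1 / 100) : ‖Complex.sin w‖ ≤ 1.1 * ‖w‖ := by
  have h := Complex.sin_bound (x := w) (by linarith)
  have h0 := norm_nonneg w
  have e : Complex.sin w = (Complex.sin w - (w - w ^ 3 / 6)) + w - w ^ 3 / 6 := by ring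
  have h1 : ‖Complex.sin w‖ ≤ ‖w‖ ^ 5 / 100 + ‖w‖ + ‖w‖ ^ 3 / 6 := by
    rw [e]
    refine (norm_sub_le _ _).trans (add_le_add ((norm_add_le _ _).trans (add_le_add h le_rfl)) ?_)
    rw [norm_div, norm_pow]
    norm_num
  have h2 : ‖w‖ ^ 2 ≤ 1 / 10000 := by nlinarith
  have h3 : ‖w‖ ^ 3 ≤ 1 / 10000 * ‖w‖ := by
    calc ‖w‖ ^ 3 = ‖w‖ ^ 2 * ‖w‖ := by ring
      _ ≤ 1 / 10000 * ‖w‖ := mul_le_mul_of_nonneg_right h2 h0
  have h4 : ‖w‖ ^ 4 ≤ 1 / 10000 * ‖w‖ := by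
    calc ‖w‖ ^ 4 = ‖w‖ ^ 3 * ‖w‖ := by ring
      _ ≤ (1 / 10000 * ‖w‖) * ‖w‖ := mul_le_mul_of_nonneg_right h3 h0
      _ ≤ 1 / 10000 * ‖w‖ := by nlinarith
  have h5 : ‖w‖ ^ 5 ≤ 1 / 10000 * ‖w‖ := by
    calc ‖w‖ ^ 5 = ‖w‖ ^ 4 * ‖w‖ := by ring
      _ ≤ (1 / 10000 * ‖w‖) * ‖w‖ := mul_le_mul_of_nonneg_right h4 h0
      _ ≤ 1 / 10000 * ‖w‖ := by nlinarith
  linarith

private theorem lip_summable (hB : TaskBasic) {ζ : ℂ} (hζ : |ζ.re| ≤ 3.01) :
    Summable fun j : ℕ => (mm j : ℂ) * (Complex.tan ((ζ + (tt j : ℂ)) / 2) -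
      Complex.tan ((tt j : ℂ) / 2)) := by
  obtain ⟨ht, hm, hs, -, -, -⟩ := hB
  refine Summable.of_norm_bounded (g := fun j => mm j * (693 * ‖Complex.sin (ζ / 2)‖))
    (hs.mul_right _) ?_
  intro j
  rw [norm_mul, Complex.norm_real, Real.norm_of_nonneg (hm j).le]
  refine mul_le_mul_of_nonneg_left ?_ (hm j).le
  obtain ⟨h1, h2⟩ := ht j
  have e : (ζ + (tt j : ℂ)) / 2 - (tt j : ℂ) / 2 = ζ / 2 := by ring
  rw [← e]
  obtain ⟨h3, h4⟩ := abs_le.1 hζ
  refine lip_tan ?_ ?_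
  · have : ((ζ + (tt j : ℂ)) / 2).re = (ζ.re + tt j) / 2 := by simp
    rw [this, abs_le]
    constructor <;> linarith
  · have : ((tt j : ℂ) / 2).re = tt j / 2 := by simp
    rw [this, abs_le]
    constructor <;> linarith

theorem taskLip : TaskLip := by
  intro hB x ζ hx hζ
  have hB' := hB
  obtain ⟨ht, hm, hs, hsum, -, -⟩ := hB'
  have hre : |ζ.re - x| ≤ 1 / 100 := by
    have := Complex.abs_re_le_norm (ζ - x)
    simp only [Complex.sub_re, Complex.ofReal_re] at this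
    linarith
  obtain ⟨h1, h2⟩ := abs_le.1 hx
  obtain ⟨h3, h4⟩ := abs_le.1 hre
  have hζ3 : |ζ.re| ≤ 3.01 := by
    rw [abs_le]
    constructor <;> linarith
  have hx3 : |((x : ℂ)).re| ≤ 3.01 := by
    rw [Complex.ofReal_re, abs_le]
    constructor <;> linarith
  have s1 := lip_summable hB hζ3
  have s2 := lip_summable hB hx3
  have e1 : G ζ - G x = 1001 * (ζ - x) + ∑' j : ℕ, (mm j : ℂ) *
      (Complex.tan ((ζ + (tt j : ℂ)) / 2) - Complex.tan (((x : ℂ) + (tt j : ℂ)) / 2)) := by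
    unfold G
    have e2 : ∑' j : ℕ, (mm j : ℂ) *
      (Complex.tan ((ζ + (tt j : ℂ)) / 2) - Complex.tan (((x : ℂ) + (tt j : ℂ)) / 2)) =
      ∑' j : ℕ, ((mm j : ℂ) * (Complex.tan ((ζ + (tt j : ℂ)) / 2) - Complex.tan ((tt j : ℂ) / 2)) -
        (mm j : ℂ) * (Complex.tan (((x : ℂ) + (tt j : ℂ)) / 2) - Complex.tan ((tt j : ℂ) / 2))) :=
      tsum_congr fun j => by ring
    rw [e2, s1.tsum_sub s2]
    ring
  have hbound : ‖∑' j : ℕ, (mm j : ℂ) *
      (Complex.tan ((ζ + (tt j : ℂ)) / 2) - Complex.tan (((x : ℂ) + (tt j : ℂ)) / 2))‖ ≤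
      (∑' j, mm j) * (693 * (1.1 * (‖ζ - x‖ / 2))) := by
    refine tsum_of_norm_bounded (hs.hasSum.mul_right _) ?_
    intro j
    rw [norm_mul, Complex.norm_real, Real.norm_of_nonneg (hm j).le]
    refine mul_le_mul_of_nonneg_left ?_ (hm j).le
    obtain ⟨h5, h6⟩ := ht j
    obtain ⟨h7, h8⟩ := abs_le.1 hζ3
    have e : (ζ + (tt j : ℂ)) / 2 - ((x : ℂ) + (tt j : ℂ)) / 2 = (ζ - x) / 2 := by ring
    have hn : ‖(ζ - x) / 2‖ = ‖ζ - x‖ / 2 := by rw [norm_div]; norm_num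
    refine (lip_tan ?_ ?_).trans ?_
    · have : ((ζ + (tt j : ℂ)) / 2).re = (ζ.re + tt j) / 2 := by simp
      rw [this, abs_le]
      constructor <;> linarith
    · have : (((x : ℂ) + (tt j : ℂ)) / 2).re = (x + tt j) / 2 := by simp
      rw [this, abs_le]
      constructor <;> linarith
    · rw [e, ← hn]
      refine mul_le_mul_of_nonneg_left (lip_sin ?_) (by norm_num)
      rw [hn]
      linarith [norm_nonneg (ζ - x)]
  rw [e1]
  refine (norm_add_le _ _).trans ?_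
  rw [norm_mul]
  have h0 := norm_nonneg (ζ - x)
  have h9 : (∑' j, mm j) * (693 * (1.1 * (‖ζ - x‖ / 2))) ≤
      1 / 50 * (693 * (1.1 * (‖ζ - x‖ / 2))) :=
    mul_le_mul_of_nonneg_right hsum (by positivity)
  have h10 : ‖(1001 : ℂ)‖ = 1001 := by norm_num
  rw [h10]
  linarith

end Pool.Agent.Q265.RL
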