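import Pool.Agent.Q265.RL.Stmts

set_option autoImplicit false

open Filter Topology

namespace Pool.Agent.Q265.RL

namespace PB

theorem sq_le (i : ℕ) : ((i : ℝ) + 1) ^ 2 ≤ 5 * (3 / 2) ^ i := by
  by_cases h : i < 4
  · interval_cases i <;> norm_num
  · push Not at h
    induction i, h using Nat.le_induction with
    | base => norm_num
    | succ n hn ih =>
      have hn' : (4 : ℝ) ≤ n := by exact_mod_cast hn
      have e : (5 : ℝ) * (3 / 2) ^ (n + 1) = 3 / 2 * (5 * (3 / 2) ^ n) := by rw [pow_succ]; ring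
      rw [e]
      push_cast
      have h2 : ((n : ℝ) + 1 + 1) ^ 2 ≤ 3 / 2 * ((n : ℝ) + 1) ^ 2 := by nlinarith
      linarith

theorem geo (n : ℕ) : ∑ i ∈ Finset.range n, ((3 : ℝ) / 4) ^ i ≤ 4 := by
  have : ∑ i ∈ Finset.range n, ((3 : ℝ) / 4) ^ i = 4 - 4 * (3 / 4) ^ n := by
    induction n with
    | zero => simp
    | succ k ih => rw [Finset.sum_range_succ, ih, pow_succ]; ring
  rw [this]
  have : (0 : ℝ) ≤ (3 / 4) ^ n := by positivity
  linarith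

theorem ww_pos (j : ℕ) : 0 < ww j := by unfold ww; positivity

theorem ww_tele (J n : ℕ) : ∑ j ∈ Finset.range n, ww (J + j)
    = 1 / ((J : ℝ) + 1) - 1 / ((J : ℝ) + n + 1) := by
  induction n with
  | zero => simp
  | succ k ih =>
    rw [Finset.sum_range_succ, ih]
    unfold ww
    push_cast
    have h1 : (J : ℝ) + 1 ≠ 0 := by positivity
    have h2 : (J : ℝ) + k + 1 ≠ 0 := by positivity
    have h3 : (J : ℝ) + k + 2 ≠ 0 := by positivity
    have h4 : (J : ℝ) + (k + 1) + 1 ≠ 0 := by positivity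
    field_simp
    ring

theorem tt_ratio (i j : ℕ) : tt (i + j) = tt j * (1 / 2) ^ i := by
  unfold tt; rw [pow_add]; ring

theorem tt_pos (j : ℕ) : 0 < tt j := by unfold tt; positivity

theorem tt_le (j : ℕ) : tt j ≤ 1 / 100 := by
  unfold tt
  have : ((1 : ℝ) / 2) ^ j ≤ 1 := pow_le_one₀ (by norm_num) (by norm_num)
  linarith

theorem mm_le (j : ℕ) : mm j ≤ 2 * ww j * tt j := by
  unfold mm
  have h1 : Real.sin (tt j) ≤ tt j := Real.sin_le (tt_pos j).le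
  have h0 : 0 ≤ Real.sin (tt j) := by
    apply Real.sin_nonneg_of_nonneg_of_le_pi (tt_pos j).le
    have := tt_le j
    have := Real.pi_gt_three
    linarith
  have h2 : Real.pi / 2 ≤ 2 := by have := Real.pi_le_four; linarith
  have hw := (ww_pos j).le
  calc Real.pi / 2 * ww j * Real.sin (tt j) ≤ 2 * ww j * Real.sin (tt j) := by gcongr
    _ ≤ 2 * ww j * tt j := by gcongr

theorem mm_nonneg (j : ℕ) : 0 ≤ mm j := by
  unfold mm
  have h0 : 0 ≤ Real.sin (tt j) := by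
    apply Real.sin_nonneg_of_nonneg_of_le_pi (tt_pos j).le
    have := tt_le j
    have := Real.pi_gt_three
    linarith
  have := Real.pi_pos
  have hw := (ww_pos j).le
  positivity

/-- the denominators -/
noncomputable def DD (r : ℝ) (j : ℕ) : ℝ := (1 - r) ^ 2 + 4 * r * Real.sin (tt j / 2) ^ 2

theorem DD_ge1 (r : ℝ) (h0 : 0 ≤ r) (j : ℕ) : (1 - r) ^ 2 ≤ DD r j := by
  unfold DD
  have : 0 ≤ 4 * r * Real.sin (tt j / 2) ^ 2 := by positivity
  linarith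

theorem DD_ge2 (r : ℝ) (h0 : 1 / 2 ≤ r) (j : ℕ) : tt j ^ 2 / 8 ≤ DD r j := by
  unfold DD
  have ht := tt_pos j
  have ht' := tt_le j
  have hpi := Real.pi_pos
  have hpi3 := Real.pi_gt_three
  have h1 : 2 / Real.pi * (tt j / 2) ≤ Real.sin (tt j / 2) :=
    Real.mul_le_sin (by linarith) (by linarith)
  have h2 : 1 / 2 ≤ 2 / Real.pi := by
    rw [div_le_div_iff₀ (by norm_num) hpi]
    have := Real.pi_le_four; linarith
  have h3 : tt j / 4 ≤ Real.sin (tt j / 2) := by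
    have : 1 / 2 * (tt j / 2) ≤ 2 / Real.pi * (tt j / 2) :=
      mul_le_mul_of_nonneg_right h2 (by linarith)
    linarith
  have h4 : (tt j / 4) ^ 2 ≤ Real.sin (tt j / 2) ^ 2 :=
    pow_le_pow_left₀ (by linarith) h3 2
  have h5 : 4 * (1 / 2) * Real.sin (tt j / 2) ^ 2 ≤ 4 * r * Real.sin (tt j / 2) ^ 2 := by
    gcongr
  have h6 : 0 ≤ (1 - r) ^ 2 := sq_nonneg _
  have h7 : (tt j / 4) ^ 2 = tt j ^ 2 / 16 := by ring
  linarith

theorem DD_le (r : ℝ) (h0 : 0 ≤ r) (h1 : r ≤ 1) (j : ℕ) (h : tt j ≤ 1 - r) :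
    DD r j ≤ 2 * (1 - r) ^ 2 := by
  unfold DD
  have ht := tt_pos j
  have ht' := tt_le j
  have hs : Real.sin (tt j / 2) ≤ tt j / 2 := Real.sin_le (by linarith)
  have hs0 : 0 ≤ Real.sin (tt j / 2) := by
    apply Real.sin_nonneg_of_nonneg_of_le_pi (by linarith)
    have := Real.pi_gt_three
    linarith
  have h2 : Real.sin (tt j / 2) ^ 2 ≤ (tt j / 2) ^ 2 := pow_le_pow_left₀ hs0 hs 2
  have h3 : 4 * r * Real.sin (tt j / 2) ^ 2 ≤ 4 * 1 * (tt j / 2) ^ 2 := by gcongr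
  have h4 : tt j ^ 2 ≤ (1 - r) ^ 2 := pow_le_pow_left₀ ht.le h 2
  have h5 : 4 * 1 * (tt j / 2) ^ 2 = tt j ^ 2 := by ring
  linarith

/-- first bound of the terms -/
theorem T1 (r : ℝ) (h0 : 1 / 2 ≤ r) (h1 : r < 1) (j : ℕ) :
    mm j * ((1 - r ^ 2) / DD r j) ≤ 4 * ww j * (tt j / (1 - r)) := by
  have hs : 0 < 1 - r := by linarith
  have hD := DD_ge1 r (by linarith) j
  have hs2 : 0 < (1 - r) ^ 2 := by positivity
  have e1 : 1 - r ^ 2 ≤ 2 * (1 - r) := by nlinarith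
  have e2 : (1 - r ^ 2) / DD r j ≤ 2 * (1 - r) / (1 - r) ^ 2 :=
    div_le_div₀ (by positivity) e1 hs2 hD
  have e3 : 2 * (1 - r) / (1 - r) ^ 2 = 2 / (1 - r) := by field_simp
  rw [e3] at e2
  have e0 : 0 ≤ (1 - r ^ 2) / DD r j := by
    apply div_nonneg
    · nlinarith
    · linarith
  have hw := (ww_pos j).le
  have ht := (tt_pos j).le
  calc mm j * ((1 - r ^ 2) / DD r j) ≤ (2 * ww j * tt j) * (2 / (1 - r)) :=
        mul_le_mul (mm_le j) e2 e0 (by positivity)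
    _ = 4 * ww j * (tt j / (1 - r)) := by ring

/-- second bound of the terms -/
theorem T2 (r : ℝ) (h0 : 1 / 2 ≤ r) (h1 : r < 1) (j : ℕ) :
    mm j * ((1 - r ^ 2) / DD r j) ≤ 32 * ww j * ((1 - r) / tt j) := by
  have hs : 0 < 1 - r := by linarith
  have hD := DD_ge2 r h0 j
  have ht := tt_pos j
  have hs2 : 0 < tt j ^ 2 / 8 := by positivity
  have e1 : 1 - r ^ 2 ≤ 2 * (1 - r) := by nlinarith
  have e2 : (1 - r ^ 2) / DD r j ≤ 2 * (1 - r) / (tt j ^ 2 / 8) :=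
    div_le_div₀ (by positivity) e1 hs2 hD
  have e0 : 0 ≤ (1 - r ^ 2) / DD r j := by
    apply div_nonneg
    · nlinarith
    · linarith
  have hw := (ww_pos j).le
  calc mm j * ((1 - r ^ 2) / DD r j) ≤ (2 * ww j * tt j) * (2 * (1 - r) / (tt j ^ 2 / 8)) :=
        mul_le_mul (mm_le j) e2 e0 (by positivity)
    _ = 32 * ww j * ((1 - r) / tt j) := by field_simp; ring

theorem T_nonneg (r : ℝ) (h0 : 1 / 2 ≤ r) (h1 : r < 1) (j : ℕ) :
    0 ≤ mm j * ((1 - r ^ 2) / DD r j) := by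
  have hs : 0 < 1 - r := by linarith
  have hD := DD_ge1 r (by linarith) j
  have hs2 : 0 < (1 - r) ^ 2 := by positivity
  apply mul_nonneg (mm_nonneg j)
  apply div_nonneg
  · nlinarith
  · linarith

theorem ww_mid (i j : ℕ) : ww j ≤ 2 * ((i : ℝ) + 1) ^ 2 / ((i : ℝ) + j + 2) ^ 2 := by
  unfold ww
  rw [div_le_div_iff₀ (by positivity) (by positivity)]
  have hi : (0 : ℝ) ≤ i := Nat.cast_nonneg i
  have hj : (0 : ℝ) ≤ j := Nat.cast_nonneg j
  have h1 : (i : ℝ) + j + 2 ≤ (i + 1) * (j + 2) := by nlinarith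
  have h2 : ((i : ℝ) + j + 2) ^ 2 ≤ ((i + 1) * (j + 2)) ^ 2 := pow_le_pow_left₀ (by positivity) h1 2
  have h3 : ((j : ℝ) + 2) ≤ 2 * (j + 1) := by linarith
  have h4 : ((i + 1) * ((j : ℝ) + 2)) ^ 2 ≤ 2 * ((i : ℝ) + 1) ^ 2 * ((j + 1) * (j + 2)) := by
    have : ((i + 1) * ((j : ℝ) + 2)) ^ 2 = ((i : ℝ) + 1) ^ 2 * (j + 2) * (j + 2) := by ring
    rw [this]
    have : 2 * ((i : ℝ) + 1) ^ 2 * ((j + 1) * (j + 2)) = ((i : ℝ) + 1) ^ 2 * (j + 2) * (2 * (j + 1)) := by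
      ring
    rw [this]
    gcongr
  linarith

theorem ww_high (I k : ℕ) : ww (I + 1 + k) ≤ 1 / ((I : ℝ) + 2) ^ 2 := by
  unfold ww
  apply one_div_le_one_div_of_le (by positivity)
  push_cast
  have hI : (0 : ℝ) ≤ I := Nat.cast_nonneg I
  have hk : (0 : ℝ) ≤ k := Nat.cast_nonneg k
  nlinarith [mul_nonneg hI hk]

theorem low (r : ℝ) (h0 : 1 / 2 ≤ r) (h1 : r < 1) (i j : ℕ) (h : 1 - r < tt (i + j)) :
    mm j * ((1 - r ^ 2) / DD r j) ≤ 320 / ((i : ℝ) + j + 2) ^ 2 * (3 / 4) ^ i := by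
  have h2 := T2 r h0 h1 j
  have ht := tt_pos j
  have h3 : (1 - r) / tt j ≤ (1 / 2) ^ i := by
    rw [div_le_iff₀ ht]
    rw [tt_ratio] at h
    linarith
  have hw := ww_mid i j
  have hs := sq_le i
  have hwp := (ww_pos j).le
  calc mm j * ((1 - r ^ 2) / DD r j) ≤ 32 * ww j * ((1 - r) / tt j) := h2
    _ ≤ 32 * ww j * (1 / 2) ^ i := by gcongr
    _ ≤ 32 * (2 * ((i : ℝ) + 1) ^ 2 / ((i : ℝ) + j + 2) ^ 2) * (1 / 2) ^ i := by gcongr
    _ ≤ 32 * (2 * (5 * (3 / 2) ^ i) / ((i : ℝ) + j + 2) ^ 2) * (1 / 2) ^ i := by gcongr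
    _ = 320 / ((i : ℝ) + j + 2) ^ 2 * ((3 / 2) ^ i * (1 / 2) ^ i) := by ring
    _ = 320 / ((i : ℝ) + j + 2) ^ 2 * (3 / 4) ^ i := by
        rw [← mul_pow]; norm_num

theorem high (r : ℝ) (h0 : 1 / 2 ≤ r) (h1 : r < 1) (I k : ℕ) (h : tt (I + 1) ≤ 1 - r) :
    mm (I + 1 + k) * ((1 - r ^ 2) / DD r (I + 1 + k)) ≤ 320 / ((I : ℝ) + 2) ^ 2 * (3 / 4) ^ k := by
  have h2 := T1 r h0 h1 (I + 1 + k)
  have hs : 0 < 1 - r := by linarith
  have h3 : tt (I + 1 + k) / (1 - r) ≤ (3 / 4) ^ k := by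
    rw [div_le_iff₀ hs]
    have e : tt (I + 1 + k) = tt (I + 1) * (1 / 2) ^ k := by
      rw [add_comm (I + 1) k]; exact tt_ratio k (I + 1)
    rw [e]
    have : ((1 : ℝ) / 2) ^ k ≤ (3 / 4) ^ k := pow_le_pow_left₀ (by norm_num) (by norm_num) k
    calc tt (I + 1) * (1 / 2) ^ k ≤ (1 - r) * (3 / 4) ^ k := by
          apply mul_le_mul h this (by positivity) hs.le
      _ = (3 / 4) ^ k * (1 - r) := by ring
  have hw := ww_high I k
  have hwp := (ww_pos (I + 1 + k)).le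
  calc mm (I + 1 + k) * ((1 - r ^ 2) / DD r (I + 1 + k))
      ≤ 4 * ww (I + 1 + k) * (tt (I + 1 + k) / (1 - r)) := h2
    _ ≤ 4 * ww (I + 1 + k) * (3 / 4) ^ k := by gcongr
    _ ≤ 4 * (1 / ((I : ℝ) + 2) ^ 2) * (3 / 4) ^ k := by gcongr
    _ ≤ 320 * (1 / ((I : ℝ) + 2) ^ 2) * (3 / 4) ^ k := by gcongr; norm_num
    _ = 320 / ((I : ℝ) + 2) ^ 2 * (3 / 4) ^ k := by ring

theorem tsum_le (r : ℝ) (h0 : 1 / 2 ≤ r) (h1 : r < 1) (I : ℕ) (ha : tt (I + 1) ≤ 1 - r)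
    (hb : 1 - r < tt I) :
    ∑' j : ℕ, mm j * ((1 - r ^ 2) / DD r j) ≤ 2560 / ((I : ℝ) + 2) ^ 2 := by
  apply Real.tsum_le_of_sum_range_le (fun j => T_nonneg r h0 h1 j)
  intro N
  have hsub : ∑ j ∈ Finset.range N, mm j * ((1 - r ^ 2) / DD r j) ≤
      ∑ j ∈ Finset.range (I + 1 + N), mm j * ((1 - r ^ 2) / DD r j) := by
    apply Finset.sum_le_sum_of_subset_of_nonneg
    · intro x hx
      simp only [Finset.mem_range] at hx ⊢; omega
    · intro x _ _; exact T_nonneg r h0 h1 x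
  rw [Finset.sum_range_add] at hsub
  have hA : ∑ j ∈ Finset.range (I + 1), mm j * ((1 - r ^ 2) / DD r j) ≤
      320 / ((I : ℝ) + 2) ^ 2 * 4 := by
    rw [← Finset.sum_range_reflect]
    calc ∑ j ∈ Finset.range (I + 1), mm (I + 1 - 1 - j) * ((1 - r ^ 2) / DD r (I + 1 - 1 - j))
        ≤ ∑ j ∈ Finset.range (I + 1), 320 / ((I : ℝ) + 2) ^ 2 * (3 / 4) ^ j := by
          apply Finset.sum_le_sum
          intro j hj
          simp only [Finset.mem_range] at hj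
          have e : j + (I + 1 - 1 - j) = I := by omega
          have := low r h0 h1 j (I + 1 - 1 - j) (by rw [e]; exact hb)
          have e' : (j : ℝ) + ((I + 1 - 1 - j : ℕ) : ℝ) + 2 = (I : ℝ) + 2 := by
            rw [← Nat.cast_add, e]
          rw [e'] at this
          exact this
      _ = 320 / ((I : ℝ) + 2) ^ 2 * ∑ j ∈ Finset.range (I + 1), (3 / 4) ^ j := by
          rw [Finset.mul_sum]
      _ ≤ 320 / ((I : ℝ) + 2) ^ 2 * 4 := by
          apply mul_le_mul_of_nonneg_left (geo _) (by positivity)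
  have hB : ∑ k ∈ Finset.range N, mm (I + 1 + k) * ((1 - r ^ 2) / DD r (I + 1 + k)) ≤
      320 / ((I : ℝ) + 2) ^ 2 * 4 := by
    calc ∑ k ∈ Finset.range N, mm (I + 1 + k) * ((1 - r ^ 2) / DD r (I + 1 + k))
        ≤ ∑ k ∈ Finset.range N, 320 / ((I : ℝ) + 2) ^ 2 * (3 / 4) ^ k := by
          apply Finset.sum_le_sum
          intro k _
          exact high r h0 h1 I k ha
      _ = 320 / ((I : ℝ) + 2) ^ 2 * ∑ j ∈ Finset.range N, (3 / 4) ^ j := by
          rw [Finset.mul_sum]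
      _ ≤ 320 / ((I : ℝ) + 2) ^ 2 * 4 := by
          apply mul_le_mul_of_nonneg_left (geo _) (by positivity)
  have hC : 320 / ((I : ℝ) + 2) ^ 2 * 4 + 320 / ((I : ℝ) + 2) ^ 2 * 4
      = 2560 / ((I : ℝ) + 2) ^ 2 := by ring
  linarith

theorem dl_ge (hw : Summable ww) (r : ℝ) (h0 : 1 / 2 ≤ r) (h1 : r < 1) (J : ℕ)
    (ha : tt J ≤ 1 - r) : 3 / 8 / ((J : ℝ) + 1) ≤ dl r := by
  have hs : 0 < 1 - r := by linarith
  have hs2 : 0 < (1 - r) ^ 2 := by positivity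
  have hDpos : ∀ j, 0 < DD r j := fun j => lt_of_lt_of_le hs2 (DD_ge1 r (by linarith) j)
  have hpi := Real.pi_pos
  have hnn : ∀ j, 0 ≤ Real.pi * ww j * Real.cos (tt j / 2) ^ 2 * ((1 - r) ^ 2 / DD r j) := by
    intro j
    have := (hDpos j).le
    have := (ww_pos j).le
    positivity
  have hle : ∀ j, Real.pi * ww j * Real.cos (tt j / 2) ^ 2 * ((1 - r) ^ 2 / DD r j)
      ≤ Real.pi * ww j := by
    intro j
    have h2 : (1 - r) ^ 2 / DD r j ≤ 1 := by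
      rw [div_le_one (hDpos j)]; exact DD_ge1 r (by linarith) j
    have h3 : Real.cos (tt j / 2) ^ 2 ≤ 1 := Real.cos_sq_le_one _
    have h4 := (ww_pos j).le
    have h5 : 0 ≤ (1 - r) ^ 2 / DD r j := div_nonneg hs2.le (hDpos j).le
    calc Real.pi * ww j * Real.cos (tt j / 2) ^ 2 * ((1 - r) ^ 2 / DD r j)
        ≤ Real.pi * ww j * 1 * 1 := by gcongr
      _ = Real.pi * ww j := by ring
  have hsum : Summable fun j => Real.pi * ww j * Real.cos (tt j / 2) ^ 2 * ((1 - r) ^ 2 / DD r j) :=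
    Summable.of_nonneg_of_le hnn hle (hw.mul_left _)
  have hdl : dl r = ∑' j, Real.pi * ww j * Real.cos (tt j / 2) ^ 2 * ((1 - r) ^ 2 / DD r j) := rfl
  rw [hdl]
  have h6 : ∑ j ∈ Finset.range (J + (J + 1)),
      Real.pi * ww j * Real.cos (tt j / 2) ^ 2 * ((1 - r) ^ 2 / DD r j) ≤
      ∑' j, Real.pi * ww j * Real.cos (tt j / 2) ^ 2 * ((1 - r) ^ 2 / DD r j) :=
    hsum.sum_le_tsum _ (fun j _ => hnn j)
  refine le_trans ?_ h6
  rw [Finset.sum_range_add]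
  have h7 : 0 ≤ ∑ j ∈ Finset.range J,
      Real.pi * ww j * Real.cos (tt j / 2) ^ 2 * ((1 - r) ^ 2 / DD r j) :=
    Finset.sum_nonneg (fun j _ => hnn j)
  have h8 : ∑ j ∈ Finset.range (J + 1), 3 / 4 * ww (J + j) ≤ ∑ j ∈ Finset.range (J + 1),
      Real.pi * ww (J + j) * Real.cos (tt (J + j) / 2) ^ 2 * ((1 - r) ^ 2 / DD r (J + j)) := by
    apply Finset.sum_le_sum
    intro j _
    have ht : tt (J + j) ≤ 1 - r := by
      refine le_trans ?_ ha
      rw [add_comm, tt_ratio]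
      have : ((1 : ℝ) / 2) ^ j ≤ 1 := pow_le_one₀ (by norm_num) (by norm_num)
      have := tt_pos J
      nlinarith
    have hD := DD_le r (by linarith) h1.le (J + j) ht
    have g1 : 1 / 2 ≤ (1 - r) ^ 2 / DD r (J + j) := by
      rw [le_div_iff₀ (hDpos _)]; linarith
    have g2 : 1 / 2 ≤ Real.cos (tt (J + j) / 2) ^ 2 := by
      rw [Real.cos_sq']
      have t0 := tt_pos (J + j)
      have t1 := tt_le (J + j)
      have hs' : Real.sin (tt (J + j) / 2) ≤ tt (J + j) / 2 := Real.sin_le (by linarith)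
      have hs0 : 0 ≤ Real.sin (tt (J + j) / 2) := by
        apply Real.sin_nonneg_of_nonneg_of_le_pi (by linarith)
        have := Real.pi_gt_three
        linarith
      have : Real.sin (tt (J + j) / 2) ^ 2 ≤ (1 / 2) ^ 2 := pow_le_pow_left₀ hs0 (by linarith) 2
      norm_num at this ⊢
      linarith
    have g3 := (ww_pos (J + j)).le
    have g4 : (3 : ℝ) ≤ Real.pi := Real.pi_gt_three.le
    calc 3 / 4 * ww (J + j) = 3 * ww (J + j) * (1 / 2) * (1 / 2) := by ring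
      _ ≤ Real.pi * ww (J + j) * Real.cos (tt (J + j) / 2) ^ 2 * ((1 - r) ^ 2 / DD r (J + j)) := by
        gcongr
  rw [← Finset.mul_sum, ww_tele] at h8
  have h9 : 3 / 4 * (1 / ((J : ℝ) + 1) - 1 / ((J : ℝ) + ((J + 1 : ℕ) : ℝ) + 1))
      = 3 / 8 / ((J : ℝ) + 1) := by
    push_cast
    have : (J : ℝ) + 1 ≠ 0 := by positivity
    have : (J : ℝ) + (J + 1) + 1 ≠ 0 := by positivity
    have e : (J : ℝ) + (J + 1) + 1 = 2 * (J + 1) := by ring
    rw [e]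
    field_simp
    ring
  rw [h9] at h8
  linarith

end PB

open PB in
theorem taskPathBound : TaskPathBound := by
  rintro ⟨-, -, -, -, hw, -⟩
  refine ⟨20000, 199 / 200, by norm_num, by norm_num, by norm_num, ?_⟩
  intro r hr0 hr1
  have h0 : (1 : ℝ) / 2 ≤ r := by linarith
  have hs : 0 < 1 - r := by linarith
  -- the index
  have hex : ∃ j, tt j ≤ 1 - r := by
    obtain ⟨n, hn⟩ := exists_pow_lt_of_lt_one hs (by norm_num : (1 / 2 : ℝ) < 1)
    refine ⟨n, ?_⟩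
    unfold tt
    have : (0 : ℝ) ≤ (1 / 2) ^ n := by positivity
    linarith
  classical
  obtain ⟨I, ha, hb⟩ : ∃ I, tt (I + 1) ≤ 1 - r ∧ 1 - r < tt I := by
    have hpos : Nat.find hex ≠ 0 := by
      intro h
      have := Nat.find_spec hex
      rw [h] at this
      unfold tt at this
      norm_num at this
      linarith
    obtain ⟨I, hI⟩ := Nat.exists_eq_succ_of_ne_zero hpos
    refine ⟨I, ?_, ?_⟩
    · have := Nat.find_spec hex
      rw [hI] at this; exact this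
    · have := Nat.find_min hex (m := I) (by omega)
      exact lt_of_not_ge this
  have hT := tsum_le r h0 hr1 I ha hb
  have hT0 : 0 ≤ ∑' j : ℕ, mm j * ((1 - r ^ 2) / DD r j) :=
    tsum_nonneg (fun j => T_nonneg r h0 hr1 j)
  have hd := dl_ge hw r h0 hr1 (I + 1) ha
  have hyy : yy r = 1001 * Real.log r - ∑' j : ℕ, mm j * ((1 - r ^ 2) / DD r j) := rfl
  have hlog1 : Real.log r ≤ 0 := Real.log_nonpos (by linarith) hr1.le
  have hlog2 : -(2 * (1 - r)) ≤ Real.log r := by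
    have h2 := Real.one_sub_inv_le_log_of_pos (show 0 < r by linarith)
    have h3 : r⁻¹ ≤ 1 + 2 * (1 - r) := by
      rw [inv_le_iff_one_le_mul₀ (by linarith)]
      nlinarith
    linarith
  have hsI : (1 - r) ≤ (1 / 10) / ((I : ℝ) + 2) ^ 2 := by
    have h2 := sq_le (I + 1)
    push_cast at h2
    have h3 : ((3 : ℝ) / 2) ^ I * (1 / 2) ^ I ≤ 1 := by
      rw [← mul_pow]
      exact pow_le_one₀ (by norm_num) (by norm_num)
    have h4 : tt I = 1 / 100 * (1 / 2) ^ I := rfl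
    rw [h4] at hb
    rw [le_div_iff₀ (by positivity)]
    have h5 : ((I : ℝ) + 2) ^ 2 ≤ 5 * (3 / 2) ^ (I + 1) := by
      have : (I : ℝ) + 1 + 1 = I + 2 := by ring
      rw [this] at h2; exact h2
    rw [pow_succ] at h5
    have h6 : 0 ≤ ((I : ℝ) + 2) ^ 2 := by positivity
    have h7 : (0 : ℝ) ≤ (1 / 2) ^ I := by positivity
    calc (1 - r) * ((I : ℝ) + 2) ^ 2 ≤ (1 / 100 * (1 / 2) ^ I) * (5 * ((3 / 2) ^ I * (3 / 2))) := by
          apply mul_le_mul hb.le h5 h6 (by positivity)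
      _ = 3 / 40 * ((3 / 2) ^ I * (1 / 2) ^ I) := by ring
      _ ≤ 3 / 40 * 1 := by gcongr
      _ ≤ 1 / 10 := by norm_num
  have hd2 : 9 / 64 / ((I : ℝ) + 2) ^ 2 ≤ dl r ^ 2 := by
    have e : ((I + 1 : ℕ) : ℝ) + 1 = (I : ℝ) + 2 := by push_cast; ring
    rw [e] at hd
    have h3 : (3 / 8 / ((I : ℝ) + 2)) ^ 2 ≤ dl r ^ 2 := pow_le_pow_left₀ (by positivity) hd 2
    have h4 : (3 / 8 / ((I : ℝ) + 2)) ^ 2 = 9 / 64 / ((I : ℝ) + 2) ^ 2 := by
      rw [div_pow]; norm_num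
    linarith
  rw [hyy, abs_le]
  have k1 : (2560 : ℝ) / ((I : ℝ) + 2) ^ 2 = 2560 * (1 / ((I : ℝ) + 2) ^ 2) := by ring
  have k2 : (1 / 10 : ℝ) / ((I : ℝ) + 2) ^ 2 = 1 / 10 * (1 / ((I : ℝ) + 2) ^ 2) := by ring
  have k3 : (9 / 64 : ℝ) / ((I : ℝ) + 2) ^ 2 = 9 / 64 * (1 / ((I : ℝ) + 2) ^ 2) := by ring
  rw [k1] at hT
  rw [k2] at hsI
  rw [k3] at hd2
  have k4 : 0 ≤ 1 / ((I : ℝ) + 2) ^ 2 := by positivity
  generalize 1 / ((I : ℝ) + 2) ^ 2 = Q at *
  generalize dl r ^ 2 = X at *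
  generalize (∑' j : ℕ, mm j * ((1 - r ^ 2) / DD r j)) = Y at *
  constructor
  · linarith
  · linarith

end Pool.Agent.Q265.RL
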