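import Pool.Agent.Q265.RL.Stmts

set_option autoImplicit false

open Filter Topology

namespace Pool.Agent.Q265.RL

private noncomputable def pcT (r : ℝ) (j : ℕ) : ℝ :=
  Real.pi * ww j * Real.cos (tt j / 2) ^ 2 *
    ((1 - r) ^ 2 / ((1 - r) ^ 2 + 4 * r * Real.sin (tt j / 2) ^ 2))

private lemma pc_ww_pos (j : ℕ) : 0 < ww j := by
  unfold ww; positivity

private lemma pc_bound (r : ℝ) (hr : 0 ≤ r) (j : ℕ) : 0 ≤ pcT r j ∧ pcT r j ≤ Real.pi * ww j := by
  have hw := pc_ww_pos j
  have hpi := Real.pi_pos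
  have h1 : 0 ≤ 4 * r * Real.sin (tt j / 2) ^ 2 := by positivity
  have h2 : 0 ≤ (1 - r) ^ 2 / ((1 - r) ^ 2 + 4 * r * Real.sin (tt j / 2) ^ 2) := by positivity
  have h3 : (1 - r) ^ 2 / ((1 - r) ^ 2 + 4 * r * Real.sin (tt j / 2) ^ 2) ≤ 1 := by
    apply div_le_one_of_le₀ (by linarith) (by positivity)
  have h4 : Real.cos (tt j / 2) ^ 2 ≤ 1 := Real.cos_sq_le_one _
  have h5 : 0 ≤ Real.cos (tt j / 2) ^ 2 := sq_nonneg _
  have h6 : 0 ≤ Real.pi * ww j := by positivity
  constructor
  · unfold pcT; positivity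
  · unfold pcT
    calc Real.pi * ww j * Real.cos (tt j / 2) ^ 2 *
          ((1 - r) ^ 2 / ((1 - r) ^ 2 + 4 * r * Real.sin (tt j / 2) ^ 2))
        ≤ Real.pi * ww j * Real.cos (tt j / 2) ^ 2 * 1 :=
          mul_le_mul_of_nonneg_left h3 (by positivity)
      _ ≤ Real.pi * ww j * 1 * 1 := by
          gcongr
      _ = Real.pi * ww j := by ring

private lemma pc_cont (r : ℝ) (j : ℕ) (h : (1 - r) ^ 2 + 4 * r * Real.sin (tt j / 2) ^ 2 ≠ 0) :
    ContinuousAt (fun r => pcT r j) r := by
  unfold pcT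
  apply ContinuousAt.mul continuousAt_const
  have h1 : ContinuousAt (fun r : ℝ => (1 - r) ^ 2) r := by fun_prop
  have h2 : ContinuousAt (fun r : ℝ => (1 - r) ^ 2 + 4 * r * Real.sin (tt j / 2) ^ 2) r := by
    fun_prop
  exact h1.div h2 h

theorem taskPathCont : TaskPathCont := by
  intro hB
  obtain ⟨htt, -, -, -, hws, -⟩ := hB
  have hsum : Summable fun j => Real.pi * ww j := hws.mul_left _
  have hdl : dl = fun r => ∑' j, pcT r j := rfl
  refine ⟨?_, ?_, ?_⟩
  · rw [hdl]
    refine continuousOn_tsum (u := fun j => Real.pi * ww j) ?_ hsum ?_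
    · intro j r hr
      refine (pc_cont r j ?_).continuousWithinAt
      have h1 : 0 < (1 - r) ^ 2 := by
        have h0 : 0 < 1 - r := by linarith [hr.2]
        positivity
      have h2 : 0 ≤ 4 * r * Real.sin (tt j / 2) ^ 2 := by have := hr.1.le; positivity
      linarith
    · intro j r hr
      have := pc_bound r hr.1.le j
      rw [Real.norm_eq_abs, abs_of_nonneg this.1]
      exact this.2
  · rw [hdl]
    have h0 : (0 : ℝ) = ∑' j : ℕ, (fun _ => (0 : ℝ)) j := by simp
    rw [h0]
    refine tendsto_tsum_of_dominated_convergence (bound := fun j => Real.pi * ww j) hsum ?_ ?_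
    · intro j
      have hs : 0 < Real.sin (tt j / 2) := by
        apply Real.sin_pos_of_pos_of_lt_pi
        · have := (htt j).1; linarith
        · have := (htt j).2; have := Real.pi_gt_three; linarith
      have hc := pc_cont 1 j (by
        have : 0 < Real.sin (tt j / 2) ^ 2 := by positivity
        nlinarith)
      have h1 : pcT 1 j = 0 := by simp [pcT]
      have h2 : Tendsto (fun r => pcT r j) (𝓝 1) (𝓝 0) := by
        have := hc.tendsto
        rwa [h1] at this
      exact h2.mono_left nhdsWithin_le_nhds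
    · have : ∀ᶠ r : ℝ in 𝓝[<] (1 : ℝ), r ∈ Set.Ioo (0 : ℝ) 1 :=
        Ioo_mem_nhdsLT (by norm_num)
      filter_upwards [this] with r hr j
      have := pc_bound r hr.1.le j
      rw [Real.norm_eq_abs, abs_of_nonneg this.1]
      exact this.2
  · intro r hr0 hr1
    rw [hdl]
    have hs : Summable fun j => pcT r j :=
      Summable.of_nonneg_of_le (fun j => (pc_bound r hr0.le j).1) (fun j => (pc_bound r hr0.le j).2) hsum
    refine hs.tsum_pos (fun j => (pc_bound r hr0.le j).1) 0 ?_
    have hc : 0 < Real.cos (tt 0 / 2) := by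
      apply Real.cos_pos_of_mem_Ioo
      have h1 := (htt 0).1
      have h2 := (htt 0).2
      have h3 := Real.pi_gt_three
      constructor <;> linarith
    have hw := pc_ww_pos 0
    have hpi := Real.pi_pos
    have h1 : 0 < (1 - r) ^ 2 := by
      have : 0 < 1 - r := by linarith
      positivity
    unfold pcT
    positivity

end Pool.Agent.Q265.RL
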