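import Pool.Agent.Q265.RL.Stmts
set_option autoImplicit false

open Filter Topology Complex

namespace Pool.Agent.Q265.RL

namespace PathEq

theorem D_pos (t r : ℝ) (h0 : 0 < r) (h1 : r < 1) :
    0 < (1 - r) ^ 2 + 4 * r * Real.sin (t / 2) ^ 2 := by
  have h2 : 0 < (1 - r) ^ 2 := pow_pos (by linarith) 2
  positivity

theorem cos_half (t : ℝ) : Real.cos t = 1 - 2 * Real.sin (t / 2) ^ 2 := by
  have h1 := Real.cos_two_mul (t / 2)
  have h2 := Real.sin_sq_add_cos_sq (t / 2)
  rw [show 2 * (t / 2) = t by ring] at h1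
  linarith

theorem term_r (t r : ℝ) (h0 : 0 < r) (h1 : r < 1) :
    (exp ((t : ℂ) * I) + (r : ℂ)) / (exp ((t : ℂ) * I) - (r : ℂ)) =
      (((1 - r ^ 2) / ((1 - r) ^ 2 + 4 * r * Real.sin (t / 2) ^ 2) : ℝ) : ℂ) -
        ((2 * r * Real.sin t / ((1 - r) ^ 2 + 4 * r * Real.sin (t / 2) ^ 2) : ℝ) : ℂ) * I := by
  have hD := D_pos t r h0 h1
  have hDe : (1 - r) ^ 2 + 4 * r * Real.sin (t / 2) ^ 2 = 1 - 2 * r * Real.cos t + r ^ 2 := by
    rw [cos_half t]; ring
  generalize (1 - r) ^ 2 + 4 * r * Real.sin (t / 2) ^ 2 = D at hD hDe ⊢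
  have hne : exp ((t : ℂ) * I) - (r : ℂ) ≠ 0 := by
    intro h
    have h2 : ‖exp ((t : ℂ) * I)‖ = 1 := norm_exp_ofReal_mul_I t
    rw [sub_eq_zero.1 h, Complex.norm_real, Real.norm_eq_abs, abs_of_pos h0] at h2
    linarith
  have hcs := Real.sin_sq_add_cos_sq t
  have he : exp ((t : ℂ) * I) = (Real.cos t : ℂ) + (Real.sin t : ℂ) * I := by
    rw [exp_mul_I, ofReal_cos, ofReal_sin]
  rw [div_eq_iff hne, he]
  generalize Real.cos t = c at hDe hcs
  generalize Real.sin t = s at hDe hcs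
  have hα : (1 - r ^ 2) / D * D = 1 - r ^ 2 := div_mul_cancel₀ _ hD.ne'
  have hβ : 2 * r * s / D * D = 2 * r * s := div_mul_cancel₀ _ hD.ne'
  generalize (1 - r ^ 2) / D = α at hα
  generalize 2 * r * s / D = β at hβ
  apply Complex.ext
  · simp only [add_re, mul_re, sub_re, ofReal_re, I_re, I_im, ofReal_im, mul_im, sub_im, add_im]
    ring_nf
    apply mul_left_cancel₀ hD.ne'
    linear_combination (c - r) * (-hα) - s * hβ + (c + r) * hDe + 2 * r * (-hcs)
  · simp only [add_re, mul_re, sub_re, ofReal_re, I_re, I_im, ofReal_im, mul_im, sub_im, add_im]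
    ring_nf
    apply mul_left_cancel₀ hD.ne'
    linear_combination s * (-hα) + (c - r) * hβ + s * hDe

theorem term_m (t : ℝ) (hC : Real.cos (t / 2) ≠ 0) :
    (exp ((t : ℂ) * I) + (-1)) / (exp ((t : ℂ) * I) - (-1)) = (Real.tan (t / 2) : ℂ) * I := by
  have h1 : Real.cos t = 2 * Real.cos (t / 2) ^ 2 - 1 := by
    have := Real.cos_two_mul (t / 2)
    rwa [show 2 * (t / 2) = t by ring] at this
  have h2 : Real.sin t = 2 * Real.sin (t / 2) * Real.cos (t / 2) := by
    have := Real.sin_two_mul (t / 2)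
    rwa [show 2 * (t / 2) = t by ring] at this
  have hcs := Real.sin_sq_add_cos_sq (t / 2)
  have he : exp ((t : ℂ) * I) = (Real.cos t : ℂ) + (Real.sin t : ℂ) * I := by
    rw [exp_mul_I, ofReal_cos, ofReal_sin]
  have hne : exp ((t : ℂ) * I) - (-1) ≠ 0 := by
    intro h
    rw [he] at h
    have := congrArg Complex.re h
    simp only [add_re, mul_re, sub_re, ofReal_re, I_re, I_im, ofReal_im, neg_re, one_re, zero_re] at this
    have h3 : Real.cos (t / 2) ^ 2 = 0 := by rw [h1] at this; linarith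
    exact hC (pow_eq_zero_iff (two_ne_zero) |>.1 h3)
  rw [div_eq_iff hne, he]
  have hT : Real.tan (t / 2) * Real.cos (t / 2) = Real.sin (t / 2) := Real.tan_mul_cos hC
  generalize Real.tan (t / 2) = T at hT
  apply Complex.ext
  · simp only [add_re, mul_re, sub_re, ofReal_re, I_re, I_im, ofReal_im, mul_im, sub_im, add_im,
      neg_re, one_re, neg_im, one_im]
    rw [h1, h2]
    linear_combination (2 * Real.sin (t / 2)) * hT + 2 * hcs
  · simp only [add_re, mul_re, sub_re, ofReal_re, I_re, I_im, ofReal_im, mul_im, sub_im, add_im,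
      neg_re, one_re, neg_im, one_im]
    rw [h1, h2]
    linear_combination (-(2 * Real.cos (t / 2))) * hT

end PathEq

open PathEq in
theorem taskPathEq : TaskPathEq := by
  intro hb r h0 h1
  obtain ⟨htt, hmm, hsm, -, hsw, hw1⟩ := hb
  have hpi := Real.pi_gt_three
  have hs0 : ∀ j, 0 ≤ Real.sin (tt j) := fun j =>
    Real.sin_nonneg_of_nonneg_of_le_pi (htt j).1.le (by linarith [(htt j).2])
  have hC : ∀ j, 0 < Real.cos (tt j / 2) := fun j =>
    Real.cos_pos_of_mem_Ioo ⟨by linarith [(htt j).1], by linarith [(htt j).2]⟩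
  have hw0 : ∀ j, 0 ≤ ww j := fun j => by unfold ww; positivity
  have hr2 : 0 < (1 - r) ^ 2 := pow_pos (by linarith) 2
  have hr3 : 0 < 1 - r ^ 2 := by nlinarith
  set D : ℕ → ℝ := fun j => (1 - r) ^ 2 + 4 * r * Real.sin (tt j / 2) ^ 2 with hDdef
  have hD : ∀ j, 0 < D j := fun j => D_pos (tt j) r h0 h1
  have hD2 : ∀ j, (1 - r) ^ 2 ≤ D j := fun j => by
    have : 0 ≤ 4 * r * Real.sin (tt j / 2) ^ 2 := by positivity
    simp only [hDdef]; linarith
  have hsin : ∀ j, Real.sin (tt j) = 2 * Real.sin (tt j / 2) * Real.cos (tt j / 2) := fun j => by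
    have := Real.sin_two_mul (tt j / 2)
    rwa [show 2 * (tt j / 2) = tt j by ring] at this
  have hT : ∀ j, mm j * Real.tan (tt j / 2) = Real.pi * ww j * Real.sin (tt j / 2) ^ 2 := fun j => by
    have h2 : Real.tan (tt j / 2) * Real.cos (tt j / 2) = Real.sin (tt j / 2) :=
      Real.tan_mul_cos (hC j).ne'
    unfold mm
    rw [hsin j]
    linear_combination (Real.pi * ww j * Real.sin (tt j / 2)) * h2
  have sA : Summable fun j => mm j * ((1 - r ^ 2) / D j) := by
    refine Summable.of_nonneg_of_le (fun j => ?_) (fun j => ?_)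
      (hsm.mul_right ((1 - r ^ 2) / (1 - r) ^ 2))
    · exact mul_nonneg (hmm j).le (div_nonneg hr3.le (hD j).le)
    · exact mul_le_mul_of_nonneg_left (div_le_div_of_nonneg_left hr3.le hr2 (hD2 j)) (hmm j).le
  have sB : Summable fun j => mm j * (2 * r * Real.sin (tt j) / D j) := by
    refine Summable.of_nonneg_of_le (fun j => ?_) (fun j => ?_)
      (hsm.mul_right (2 / (1 - r) ^ 2))
    · exact mul_nonneg (hmm j).le (div_nonneg (by have := hs0 j; positivity) (hD j).le)
    · refine mul_le_mul_of_nonneg_left ?_ (hmm j).le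
      refine div_le_div₀ (by norm_num) ?_ hr2 (hD2 j)
      have := hs0 j
      have h3 := Real.sin_le_one (tt j)
      nlinarith
  have sT : Summable fun j => mm j * Real.tan (tt j / 2) := by
    refine Summable.of_nonneg_of_le (fun j => ?_) (fun j => ?_) (hsw.mul_left Real.pi)
    · rw [hT]; have := hw0 j; positivity
    · rw [hT]
      have h3 := Real.sin_sq_le_one (tt j / 2)
      have h4 : 0 ≤ Real.pi * ww j := mul_nonneg Real.pi_pos.le (hw0 j)
      nlinarith
  have hHr : H (r : ℂ) = ((∑' j, mm j * ((1 - r ^ 2) / D j) : ℝ) : ℂ) -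
      ((∑' j, mm j * (2 * r * Real.sin (tt j) / D j) : ℝ) : ℂ) * I := by
    have e1 := (Complex.hasSum_ofReal.2 sA.hasSum).sub
      ((Complex.hasSum_ofReal.2 sB.hasSum).mul_right I)
    rw [← e1.tsum_eq]
    unfold H
    refine tsum_congr fun j => ?_
    rw [term_r (tt j) r h0 h1]
    simp only [hDdef]
    push_cast
    ring
  have hHm : H (-1) = ((∑' j, mm j * Real.tan (tt j / 2) : ℝ) : ℂ) * I := by
    have e1 := (Complex.hasSum_ofReal.2 sT.hasSum).mul_right I
    rw [← e1.tsum_eq]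
    unfold H
    refine tsum_congr fun j => ?_
    rw [term_m (tt j) (hC j).ne']
    push_cast
    ring
  have hsum : (∑' j, mm j * (2 * r * Real.sin (tt j) / D j)) + ∑' j, mm j * Real.tan (tt j / 2) =
      Real.pi - dl r := by
    have sdl : Summable fun j => Real.pi * ww j * Real.cos (tt j / 2) ^ 2 *
        ((1 - r) ^ 2 / ((1 - r) ^ 2 + 4 * r * Real.sin (tt j / 2) ^ 2)) := by
      refine Summable.of_nonneg_of_le (fun j => ?_) (fun j => ?_) (hsw.mul_left Real.pi)
      · exact mul_nonneg (mul_nonneg (mul_nonneg Real.pi_pos.le (hw0 j)) (sq_nonneg _))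
          (div_nonneg hr2.le (hD j).le)
      · have h4 : 0 ≤ Real.pi * ww j := mul_nonneg Real.pi_pos.le (hw0 j)
        have h5 : (1 - r) ^ 2 / ((1 - r) ^ 2 + 4 * r * Real.sin (tt j / 2) ^ 2) ≤ 1 :=
          div_le_one_of_le₀ (hD2 j) (hD j).le
        have h6 : Real.cos (tt j / 2) ^ 2 ≤ 1 := Real.cos_sq_le_one _
        calc _ ≤ Real.pi * ww j * 1 * 1 := by
              refine mul_le_mul (mul_le_mul_of_nonneg_left h6 h4) h5
                (div_nonneg hr2.le (hD j).le) (by linarith)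
          _ = _ := by ring
    rw [← sB.tsum_add sT]
    have e2 : Real.pi = ∑' j, Real.pi * ww j := by rw [tsum_mul_left, hw1, mul_one]
    rw [show Real.pi - dl r = (∑' j, Real.pi * ww j) - dl r by rw [← e2]]
    unfold dl
    rw [← (hsw.mul_left Real.pi).tsum_sub sdl]
    refine tsum_congr fun j => ?_
    rw [hT]
    unfold mm
    rw [hsin j]
    have hDj := (hD j).ne'
    have hcs := Real.sin_sq_add_cos_sq (tt j / 2)
    have hDj2 : D j = (1 - r) ^ 2 + 4 * r * Real.sin (tt j / 2) ^ 2 := rfl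
    rw [← hDj2]
    generalize D j = d at hDj hDj2 ⊢
    generalize Real.sin (tt j / 2) = S at hcs hDj2 ⊢
    generalize Real.cos (tt j / 2) = C at hcs ⊢
    field_simp
    have hC2 : C ^ 2 = 1 - S ^ 2 := by linarith
    have : C ^ 2 * S ^ 2 = (1 - S ^ 2) * S ^ 2 := by rw [hC2]
    rw [hDj2, hC2]
    ring
  have hlog : ((r : ℂ)) ^ 1001 = exp ((1001 * Real.log r : ℝ) : ℂ) := by
    rw [← ofReal_exp, ← ofReal_pow]
    congr 1
    rw [show (1001 : ℝ) * Real.log r = ((1001 : ℕ) : ℝ) * Real.log r by norm_num,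
      Real.exp_nat_mul, Real.exp_log h0]
  have hy : yy r = 1001 * Real.log r - ∑' j, mm j * ((1 - r ^ 2) / D j) := rfl
  unfold f E
  rw [hHr, hHm, hlog, ← Complex.exp_add]
  have e3 : -exp (-(I * ((dl r : ℂ) + (yy r : ℂ) * I))) =
      exp ((Real.pi : ℂ) * I + -(I * ((dl r : ℂ) + (yy r : ℂ) * I))) := by
    rw [Complex.exp_add, Complex.exp_pi_mul_I]; ring
  rw [e3]
  congr 1
  have hs2 : ((∑' j, mm j * (2 * r * Real.sin (tt j) / D j) : ℝ) : ℂ) +
      ((∑' j, mm j * Real.tan (tt j / 2) : ℝ) : ℂ) = (Real.pi : ℂ) - (dl r : ℂ) := by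
    exact_mod_cast congrArg (fun x : ℝ => (x : ℂ)) hsum
  rw [hy]
  generalize (∑' j, mm j * ((1 - r ^ 2) / D j)) = a
  generalize (∑' j, mm j * (2 * r * Real.sin (tt j) / D j)) = b at hs2 ⊢
  generalize (∑' j, mm j * Real.tan (tt j / 2)) = c at hs2 ⊢
  push_cast
  have hI := Complex.I_sq
  linear_combination I * hs2 + (1001 * (Real.log r : ℂ) - (a : ℂ)) * hI

end Pool.Agent.Q265.RL
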