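import Pool.Agent.Q265.RL.Stmts

set_option autoImplicit false

namespace Pool.Agent.Q265.RL

theorem real_cos_lb {u : ℝ} (hu : |u| ≤ 1505 / 1000) : (1 / 25 : ℝ) ≤ Real.cos u := by
  have hpi := Real.pi_gt_d6
  have hpi2 := Real.pi_lt_d6
  have h0 : 0 ≤ |u| := abs_nonneg u
  have h1 : |u| ≤ Real.pi / 2 := by linarith
  have h2 := Real.one_sub_mul_le_cos h0 h1
  rw [Real.cos_abs] at h2
  have h3 : 2 / Real.pi * |u| ≤ 24 / 25 := by
    have : 2 / Real.pi * |u| = 2 * |u| / Real.pi := by ring
    rw [this, div_le_iff₀ Real.pi_pos]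
    nlinarith
  linarith

theorem real_tan_sub {a b : ℝ} (ha : Real.cos a ≠ 0) (hb : Real.cos b ≠ 0) :
    Real.tan a - Real.tan b = Real.sin (a - b) / (Real.cos a * Real.cos b) := by
  rw [Real.tan_eq_sin_div_cos, Real.tan_eq_sin_div_cos, div_sub_div _ _ ha hb, Real.sin_sub]

theorem real_tan_diff {a b : ℝ} (ha : |a| ≤ 1505 / 1000) (hb : |b| ≤ 1505 / 1000) (hab : b ≤ a) :
    0 ≤ Real.tan a - Real.tan b ∧ Real.tan a - Real.tan b ≤ 625 * (a - b) := by
  have hca := real_cos_lb ha
  have hcb := real_cos_lb hb
  have hpi := Real.pi_gt_d6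
  have h1 : a - b ≤ Real.pi := by
    have := abs_le.1 ha
    have := abs_le.1 hb
    linarith [(abs_le.1 ha).2, (abs_le.1 hb).1]
  have hs0 : 0 ≤ Real.sin (a - b) := Real.sin_nonneg_of_nonneg_of_le_pi (by linarith) h1
  have hs1 : Real.sin (a - b) ≤ a - b := Real.sin_le (by linarith)
  rw [real_tan_sub (by linarith) (by linarith)]
  have hm : (1 / 625 : ℝ) ≤ Real.cos a * Real.cos b := by nlinarith
  have hm0 : 0 < Real.cos a * Real.cos b := by linarith
  refine ⟨div_nonneg hs0 hm0.le, ?_⟩
  rw [div_le_iff₀ hm0]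
  have : 0 ≤ a - b := by linarith
  nlinarith [mul_nonneg this (by linarith : 0 ≤ Real.cos a * Real.cos b - 1 / 625)]

theorem real_arg {x : ℝ} (hb : TaskBasic) (hx : |x| ≤ 3) (j : ℕ) :
    |(x + tt j) / 2| ≤ 1505 / 1000 := by
  have h1 := hb.1 j
  have h2 := abs_le.1 hx
  rw [abs_le]
  constructor <;> linarith [h1.1, h1.2, h2.1, h2.2]

theorem real_summable (hb : TaskBasic) {x : ℝ} (hx : |x| ≤ 3) :
    Summable (fun j => mm j * (Real.tan ((x + tt j) / 2) - Real.tan (tt j / 2))) := by
  refine Summable.of_norm_bounded (g := fun j => mm j * 1000) (hb.2.2.1.mul_right 1000) ?_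
  intro j
  rw [norm_mul, Real.norm_of_nonneg (hb.2.1 j).le]
  refine mul_le_mul_of_nonneg_left ?_ (hb.2.1 j).le
  have h0 : |tt j / 2| ≤ 1505 / 1000 := by
    have := real_arg (x := 0) hb (by norm_num) j
    simpa using this
  have h1 := real_arg hb hx j
  have h2 := abs_le.1 hx
  rw [Real.norm_eq_abs]
  rcases le_total 0 x with h | h
  · have := real_tan_diff h1 h0 (by linarith)
    rw [abs_of_nonneg this.1]
    linarith [this.2, h2.2]
  · have := real_tan_diff h0 h1 (by linarith)
    rw [abs_sub_comm, abs_of_nonneg this.1]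
    linarith [this.2, h2.1]

theorem taskReal : TaskReal := by
  intro hb
  have hlow : ∀ x y : ℝ, -3 ≤ x → x ≤ y → y ≤ 3 → 1001 * (y - x) ≤ g y - g x := by
    intro x y hx hxy hy
    have hx3 : |x| ≤ 3 := abs_le.2 ⟨hx, by linarith⟩
    have hy3 : |y| ≤ 3 := abs_le.2 ⟨by linarith, hy⟩
    have := Summable.tsum_le_tsum (f := fun j => mm j * (Real.tan ((x + tt j) / 2) -
      Real.tan (tt j / 2))) (g := fun j => mm j * (Real.tan ((y + tt j) / 2) -
      Real.tan (tt j / 2))) (fun j => ?_) (real_summable hb hx3) (real_summable hb hy3)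
    · simp only [g]
      linarith
    · refine mul_le_mul_of_nonneg_left ?_ (hb.2.1 j).le
      have := (real_tan_diff (real_arg hb hy3 j) (real_arg hb hx3 j) (by linarith)).1
      linarith
  refine ⟨?_, hlow, ?_, ?_⟩
  · intro x _
    simp only [G, g]
    push_cast
    rfl
  · intro x y hx hxy hy
    have hx3 : |x| ≤ 3 := abs_le.2 ⟨hx, by linarith⟩
    have hy3 : |y| ≤ 3 := abs_le.2 ⟨by linarith, hy⟩
    have hsx := real_summable hb hx3
    have hsm : Summable (fun j => mm j * (313 * (y - x))) := hb.2.2.1.mul_right _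
    have := Summable.tsum_le_tsum (f := fun j => mm j * (Real.tan ((y + tt j) / 2) -
      Real.tan (tt j / 2))) (g := fun j => mm j * (Real.tan ((x + tt j) / 2) -
      Real.tan (tt j / 2)) + mm j * (313 * (y - x))) (fun j => ?_) (real_summable hb hy3)
      (hsx.add hsm)
    · rw [hsx.tsum_add hsm, tsum_mul_right] at this
      have hm := hb.2.2.2.1
      have h0 : 0 ≤ 313 * (y - x) := by linarith
      have := mul_le_mul_of_nonneg_right hm h0
      simp only [g]
      nlinarith
    · rw [← mul_add]
      refine mul_le_mul_of_nonneg_left ?_ (hb.2.1 j).le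
      have := (real_tan_diff (real_arg hb hy3 j) (real_arg hb hx3 j) (by linarith)).2
      linarith
  · intro a b ha hab hb1
    have h1 : g (2 * a) ≤ g b := by
      have := hlow (2 * a) b (by linarith) hab (by linarith)
      linarith
    have ha3 : |a| ≤ 3 := abs_le.2 ⟨by linarith, by linarith⟩
    have ha6 : |2 * a| ≤ 3 := abs_le.2 ⟨by linarith, by linarith⟩
    have h03 : |(0 : ℝ)| ≤ 3 := by norm_num
    have h2 : 2 * g a ≤ g (2 * a) := by
      have := Summable.tsum_le_tsum (f := fun j => (mm j * (Real.tan ((a + tt j) / 2) -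
        Real.tan (tt j / 2))) * 2) (g := fun j => mm j * (Real.tan ((2 * a + tt j) / 2) -
        Real.tan (tt j / 2))) (fun j => ?_) ((real_summable hb ha3).mul_right 2)
        (real_summable hb ha6)
      · rw [tsum_mul_right] at this
        simp only [g]
        linarith
      · have ht := hb.1 j
        have c1 := real_cos_lb (real_arg hb ha3 j)
        have c2 := real_cos_lb (real_arg hb ha6 j)
        have c0 : (1 / 25 : ℝ) ≤ Real.cos (tt j / 2) := by
          have := real_cos_lb (real_arg hb h03 j)
          simpa using this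
        have hpi := Real.pi_gt_d6
        have hcc : Real.cos ((2 * a + tt j) / 2) ≤ Real.cos (tt j / 2) :=
          Real.cos_le_cos_of_nonneg_of_le_pi (by linarith) (by linarith) (by linarith)
        have e1 : Real.tan ((2 * a + tt j) / 2) - Real.tan ((a + tt j) / 2) =
            Real.sin (a / 2) / (Real.cos ((2 * a + tt j) / 2) * Real.cos ((a + tt j) / 2)) := by
          rw [real_tan_sub (by linarith) (by linarith)]
          congr 2
          ring
        have e2 : Real.tan ((a + tt j) / 2) - Real.tan (tt j / 2) =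
            Real.sin (a / 2) / (Real.cos ((a + tt j) / 2) * Real.cos (tt j / 2)) := by
          rw [real_tan_sub (by linarith) (by linarith)]
          congr 2
          ring
        have hs : 0 ≤ Real.sin (a / 2) :=
          Real.sin_nonneg_of_nonneg_of_le_pi (by linarith) (by linarith)
        have e3 : Real.sin (a / 2) / (Real.cos ((a + tt j) / 2) * Real.cos (tt j / 2)) ≤
            Real.sin (a / 2) /
              (Real.cos ((2 * a + tt j) / 2) * Real.cos ((a + tt j) / 2)) := by
          apply div_le_div_of_nonneg_left hs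
          · exact mul_pos (by linarith) (by linarith)
          · rw [mul_comm]
            exact mul_le_mul_of_nonneg_left hcc (by linarith)
        rw [mul_assoc]
        refine mul_le_mul_of_nonneg_left ?_ (hb.2.1 j).le
        linarith
    linarith

end Pool.Agent.Q265.RL
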